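import Mathlib

/-!
# Two refinements of the topology of the Cantor set given by sequences

`Sys Q` is a function `f : C → Q`, the pointwise limit of locally constant functions `h n`, together
with, for every point `x`, a sequence of smaller points (in a well-founded relation) converging to
`x`, each with a set of labels in `{0, 1}`. The points with label `i` converge to `x` in the
topology `τ_i`.
-/

set_option autoImplicit false

open Set Filter Topology PiNat

namespace Run7.h272.ZD

/-- the Cantor set -/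
abbrev C : Type := ℕ → Bool

theorem fd_eq {x y : C} {n : ℕ} (h1 : ∀ i < n, x i = y i) (h2 : x n ≠ y n) :
    x ≠ y ∧ firstDiff x y = n := by
  have hne : x ≠ y := fun h => h2 (by rw [h])
  refine ⟨hne, ?_⟩
  rcases lt_trichotomy (firstDiff x y) n with h | h | h
  · exact absurd (h1 _ h) (apply_firstDiff_ne hne)
  · exact h
  · exact absurd (apply_eq_of_lt_firstDiff h) h2

theorem ne_at_fd {x y : C} (h : x ≠ y) : x (firstDiff x y) ≠ y (firstDiff x y) :=
  apply_firstDiff_ne h

theorem eq_below_fd {x y : C} {i : ℕ} (h : i < firstDiff x y) : x i = y i :=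
  apply_eq_of_lt_firstDiff h

theorem fd_lt_of_notMem {x y : C} {n : ℕ} (h : x ∉ cylinder y n) : x ≠ y ∧ firstDiff x y < n := by
  have hne : x ≠ y := by
    rintro rfl
    exact h (self_mem_cylinder _ _)
  refine ⟨hne, ?_⟩
  by_contra hlt
  exact h ((mem_cylinder_iff_le_firstDiff hne n).2 (not_lt.1 hlt))

/-- The data. -/
structure Sys (Q : Type) [MetricSpace Q] where
  h : ℕ → C → Q
  f : C → Q
  h_loc : ∀ n x y, y ∈ cylinder x n → h n y = h n x
  h_lim : ∀ x, Tendsto (fun n => h n x) atTop (𝓝 (f x))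
  r : C → C → Prop
  wf : WellFounded r
  pt : C → ℕ → C
  lv : C → ℕ → ℕ
  lab : C → ℕ → Bool → Prop
  below : ∀ x n i, lab x n i → r (pt x n) x
  near : ∀ x n i, lab x n i → pt x n ∈ cylinder x n
  lv_lt : ∀ x n i, lab x n i → n < lv x n
  off : ∀ x n i, lab x n i → x ∉ cylinder (pt x n) (lv x n)
  disj : ∀ x n m i j, lab x n i → lab x m j → n ≠ m →
    Disjoint (cylinder (pt x n) (lv x n)) (cylinder (pt x m) (lv x m))
  both : ∀ x n, lab x n false → lab x n true → dist (f (pt x n)) (f x) ≤ (1 / 2) ^ n ∧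
    ∀ l ≥ lv x n, dist (h l (pt x n)) (f (pt x n)) ≤ (1 / 2) ^ n
  cross : ∀ x n m, lab x n false → lab x m true → n ≠ m →
    firstDiff (pt x n) x = firstDiff (pt x m) x →
    dist (h (firstDiff (pt x n) (pt x m)) (pt x n)) (f x) ≤ (1 / 2) ^ (min n m)

variable {Q : Type} [MetricSpace Q]

namespace Sys

variable (S : Sys Q)

open Classical in
/-- the function `F` on the square of `C` -/
noncomputable def F (x y : C) : Q := if x = y then S.f x else S.h (firstDiff x y) x

theorem F_self (x : C) : S.F x x = S.f x := by simp [F]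

theorem F_ne {x y : C} (h : x ≠ y) : S.F x y = S.h (firstDiff x y) x := by simp [F, h]

theorem F_comm (x y : C) : S.F x y = S.F y x := by
  by_cases h : x = y
  · rw [h]
  · rw [S.F_ne h, S.F_ne (Ne.symm h), firstDiff_comm y x]
    exact (S.h_loc _ _ _ fun i hi => (eq_below_fd hi).symm).symm

theorem F_loc {x y z w : C} {a b : ℕ} (hxy : x ≠ y) (ha : firstDiff x y < a)
    (hb : firstDiff x y < b) (hz : z ∈ cylinder x a) (hw : w ∈ cylinder y b) :
    z ≠ w ∧ S.F z w = S.F x y := by
  have h1 : ∀ i < firstDiff x y, z i = w i := fun i hi => by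
    rw [hz i (hi.trans ha), hw i (hi.trans hb), eq_below_fd hi]
  have h2 : z (firstDiff x y) ≠ w (firstDiff x y) := by
    rw [hz _ ha, hw _ hb]
    exact ne_at_fd hxy
  obtain ⟨h3, h4⟩ := fd_eq h1 h2
  refine ⟨h3, ?_⟩
  rw [S.F_ne h3, S.F_ne hxy, h4]
  exact S.h_loc _ _ _ fun i hi => hz i (hi.trans ha)

/-- `V i x k z`: the point `z` is in the basic neighbourhood of `x` of index `k` in `τ_i`. -/
inductive V (i : Bool) : C → ℕ → C → Prop
  | refl (x : C) (k : ℕ) : V i x k x
  | step (x : C) (k n : ℕ) (z : C) : k ≤ n → S.lab x n i → V i (S.pt x n) (S.lv x n) z → V i x k z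

variable {S}

theorem V.mono {i : Bool} {x z : C} {k k' : ℕ} (h : S.V i x k z) (hk : k' ≤ k) : S.V i x k' z := by
  cases h with
  | refl => exact V.refl _ _
  | step _ _ n _ hn hl hv => exact V.step _ _ n _ (hk.trans hn) hl hv

theorem V.cyl {i : Bool} {x z : C} {k : ℕ} (h : S.V i x k z) : z ∈ cylinder x k := by
  induction h with
  | refl x k => exact self_mem_cylinder _ _
  | step x k n z hn hl hv ih =>
    intro j hj
    have h1 := S.near x n i hl
    have h2 := S.lv_lt x n i hl
    rw [ih j (by omega), h1 j (by omega)]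

theorem V.open {i : Bool} {x z : C} {k : ℕ} (h : S.V i x k z) :
    ∃ k', ∀ w, S.V i z k' w → S.V i x k w := by
  induction h with
  | refl x k => exact ⟨k, fun w hw => hw⟩
  | step x k n z hn hl hv ih =>
    obtain ⟨k', hk'⟩ := ih
    exact ⟨k', fun w hw => V.step _ _ n _ hn hl (hk' w hw)⟩

theorem V.closed (S : Sys Q) {i : Bool} (x : C) : ∀ (k : ℕ) (y : C), ¬ S.V i x k y →
    ∃ m, ∀ w, S.V i y m w → ¬ S.V i x k w := by
  induction x using S.wf.induction with
  | h x ih =>
    intro k y hy
    have hxy : y ≠ x := by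
      rintro rfl
      exact hy (V.refl _ _)
    -- finitely many items
    have h1 : ∀ n, ∃ m, k ≤ n → S.lab x n i →
        ∀ w, S.V i y m w → ¬ S.V i (S.pt x n) (S.lv x n) w := by
      intro n
      by_cases hn : k ≤ n ∧ S.lab x n i
      · obtain ⟨m, hm⟩ := ih _ (S.below x n i hn.2) (S.lv x n) y
          (fun hv => hy (V.step _ _ n _ hn.1 hn.2 hv))
        exact ⟨m, fun _ _ => hm⟩
      · exact ⟨0, fun h2 h3 => absurd ⟨h2, h3⟩ hn⟩
    choose m hm using h1
    set D := firstDiff y x with hD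
    refine ⟨max (D + 1) ((Finset.range (D + 1)).sup m), fun w hw hxw => ?_⟩
    have hwD : w ∈ cylinder y (D + 1) := (hw.mono (le_max_left _ _)).cyl
    have hwx : w D ≠ x D := by
      rw [hwD D (Nat.lt_succ_self D)]
      exact ne_at_fd hxy
    cases hxw with
    | refl => exact hwx rfl
    | step _ _ n _ hn hl hv =>
      by_cases hnD : n ≤ D
      · have h2 : m n ≤ (Finset.range (D + 1)).sup m :=
          Finset.le_sup (f := m) (Finset.mem_range.2 (by omega))
        exact hm n hn hl w (hw.mono (h2.trans (le_max_right _ _))) hv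
      · have h3 := hv.cyl
        have h4 := S.near x n i hl
        have h5 := S.lv_lt x n i hl
        exact hwx (by rw [h3 D (by omega), h4 D (by omega)])

/-- **Continuity of `F` at the diagonal.** -/
theorem F_near (S : Sys Q) (x : C) : ∀ (k : ℕ) (e : ℝ) (z w : C),
    (∀ l ≥ k, dist (S.h l x) (S.f x) ≤ e) → 2 * (1 / 2 : ℝ) ^ k ≤ e →
    S.V false x k z → S.V true x k w → dist (S.F z w) (S.f x) ≤ e := by
  induction x using S.wf.induction with
  | h x ih =>
    intro k e z w he hk hz hw
    have he0 : 0 ≤ e := le_trans (by positivity) hk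
    have hpow : ∀ n, k ≤ n → (1 / 2 : ℝ) ^ n ≤ (1 / 2) ^ k := fun n hn =>
      pow_le_pow_of_le_one (by norm_num) (by norm_num) hn
    -- the first difference between `x` and the points of an item
    have key : ∀ (i : Bool) (n : ℕ) (u : C), S.lab x n i → S.V i (S.pt x n) (S.lv x n) u →
        n ≤ firstDiff (S.pt x n) x ∧ (∀ j < firstDiff (S.pt x n) x, u j = x j) ∧
        u (firstDiff (S.pt x n) x) ≠ x (firstDiff (S.pt x n) x) := by
      intro i n u hl hv
      obtain ⟨h1, h2⟩ := fd_lt_of_notMem (S.off x n i hl)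
      rw [firstDiff_comm] at h2
      have h3 := hv.cyl
      have h4 := S.near x n i hl
      refine ⟨(mem_cylinder_iff_le_firstDiff (Ne.symm h1) n).1 h4, fun j hj => ?_, ?_⟩
      · rw [h3 j (hj.trans h2), eq_below_fd hj]
      · rw [h3 _ h2]
        exact ne_at_fd (Ne.symm h1)
    cases hz with
    | refl =>
      cases hw with
      | refl => rw [S.F_self]; simpa using he0
      | step _ _ m _ hm hlm hvm =>
        obtain ⟨a1, a2, a3⟩ := key true m w hlm hvm
        obtain ⟨b1, b2⟩ := fd_eq (x := x) (y := w) (fun j hj => (a2 j hj).symm) (Ne.symm a3)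
        rw [S.F_ne b1, b2]
        exact he _ (hm.trans a1)
    | step _ _ n _ hn hln hvn =>
      obtain ⟨c1, c2, c3⟩ := key false n z hln hvn
      cases hw with
      | refl =>
        obtain ⟨b1, b2⟩ := fd_eq c2 c3
        rw [S.F_ne b1, b2, S.h_loc _ x z c2]
        exact he _ (hn.trans c1)
      | step _ _ m _ hm hlm hvm =>
        obtain ⟨a1, a2, a3⟩ := key true m w hlm hvm
        by_cases hnm : n = m
        · subst hnm
          obtain ⟨d1, d2⟩ := S.both x n hln hlm
          have h1 := ih _ (S.below x n false hln) (S.lv x n) ((1 / 2) ^ n) z w d2 (by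
            have : (1 / 2 : ℝ) ^ (S.lv x n) ≤ (1 / 2) ^ (n + 1) :=
              pow_le_pow_of_le_one (by norm_num) (by norm_num) (S.lv_lt x n false hln)
            rw [pow_succ] at this
            linarith) hvn hvm
          have h2 := dist_triangle (S.F z w) (S.f (S.pt x n)) (S.f x)
          have h3 := hpow n hn
          linarith
        · by_cases hd : firstDiff (S.pt x n) x = firstDiff (S.pt x m) x
          · have h1 := S.cross x n m hln hlm hnm hd
            have h2 := S.disj x n m false true hln hlm hnm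
            have h3 : S.pt x n ∉ cylinder (S.pt x m) (S.lv x m) := fun h =>
              Set.disjoint_left.1 h2 (self_mem_cylinder _ _) h
            have h4 : S.pt x m ∉ cylinder (S.pt x n) (S.lv x n) := fun h =>
              Set.disjoint_left.1 h2 h (self_mem_cylinder _ _)
            obtain ⟨h5, h6⟩ := fd_lt_of_notMem h3
            obtain ⟨_, h7⟩ := fd_lt_of_notMem h4
            rw [firstDiff_comm] at h7
            obtain ⟨_, h8⟩ := S.F_loc h5 h7 h6 hvn.cyl hvm.cyl
            rw [h8, S.F_ne h5]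
            have h9 := hpow (min n m) (le_min hn hm)
            have h10 : (0 : ℝ) < (1 / 2) ^ k := by positivity
            linarith
          · rcases lt_or_gt_of_ne hd with hlt | hlt
            · obtain ⟨b1, b2⟩ := fd_eq (x := z) (y := w) (n := firstDiff (S.pt x n) x)
                (fun j hj => by rw [c2 j hj, a2 j (hj.trans hlt)])
                (by rw [a2 _ hlt]; exact c3)
              rw [S.F_ne b1, b2, S.h_loc _ x z c2]
              exact he _ (hn.trans c1)
            · obtain ⟨b1, b2⟩ := fd_eq (x := z) (y := w) (n := firstDiff (S.pt x m) x)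
                (fun j hj => by rw [a2 j hj, c2 j (hj.trans hlt)])
                (by rw [c2 _ hlt]; exact Ne.symm a3)
              rw [S.F_ne b1, b2, S.h_loc _ x z (fun j hj => c2 j (hj.trans hlt))]
              exact he _ (hm.trans a1)

end Sys

/-- The space: two copies of the Cantor set with the topologies `τ_0` and `τ_1`. -/
def XX (_S : Sys Q) : Type := Bool × C

variable (S : Sys Q)

/-- basic neighbourhoods -/
def N (p : XX S) (k : ℕ) : Set (XX S) := {q | q.1 = p.1 ∧ S.V p.1 p.2 k q.2}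

variable {S}

theorem mem_N (p : XX S) (k : ℕ) : p ∈ N S p k := ⟨rfl, Sys.V.refl _ _⟩

theorem N_anti (p : XX S) {k k' : ℕ} (h : k ≤ k') : N S p k' ⊆ N S p k :=
  fun _ hq => ⟨hq.1, hq.2.mono h⟩

instance : TopologicalSpace (XX S) where
  IsOpen U := ∀ p ∈ U, ∃ k, N S p k ⊆ U
  isOpen_univ := fun _ _ => ⟨0, subset_univ _⟩
  isOpen_inter := fun U V hU hV p hp => by
    obtain ⟨k, hk⟩ := hU p hp.1
    obtain ⟨l, hl⟩ := hV p hp.2
    exact ⟨max k l, subset_inter ((N_anti p (le_max_left _ _)).trans hk)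
      ((N_anti p (le_max_right _ _)).trans hl)⟩
  isOpen_sUnion := fun 𝒰 h p hp => by
    obtain ⟨U, hU, hpU⟩ := hp
    obtain ⟨k, hk⟩ := h U hU p hpU
    exact ⟨k, hk.trans (subset_sUnion_of_mem hU)⟩

theorem isOpen_XX {U : Set (XX S)} : IsOpen U ↔ ∀ p ∈ U, ∃ k, N S p k ⊆ U := Iff.rfl

theorem isOpen_N (p : XX S) (k : ℕ) : IsOpen (N S p k) := by
  rintro ⟨i, z⟩ ⟨h1, h2⟩
  obtain ⟨k', hk'⟩ := h2.open
  refine ⟨k', ?_⟩
  rintro ⟨j, w⟩ ⟨h3, h4⟩
  simp only at h1 h3 h4
  subst h1
  exact ⟨h3, hk' w h4⟩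

theorem isClosed_N (p : XX S) (k : ℕ) : IsClosed (N S p k) := by
  rw [← isOpen_compl_iff]
  rintro ⟨i, z⟩ hz
  by_cases hi : i = p.1
  · have h1 : ¬ S.V p.1 p.2 k z := fun h => hz ⟨hi, h⟩
    obtain ⟨m, hm⟩ := Sys.V.closed S p.2 k z h1
    refine ⟨m, ?_⟩
    rintro ⟨j, w⟩ ⟨h3, h4⟩ ⟨h5, h6⟩
    simp only at h3 h4 h5 h6
    subst hi
    exact hm w h4 h6
  · refine ⟨0, ?_⟩
    rintro ⟨j, w⟩ ⟨h3, _⟩ ⟨h5, _⟩
    exact hi (h3.symm.trans h5)

theorem isClopen_N (p : XX S) (k : ℕ) : IsClopen (N S p k) := ⟨isClosed_N p k, isOpen_N p k⟩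

theorem nhds_basis_N (p : XX S) : (𝓝 p).HasBasis (fun _ : ℕ => True) (N S p) := by
  constructor
  intro U
  constructor
  · intro hU
    obtain ⟨V, hVU, hV, hpV⟩ := mem_nhds_iff.1 hU
    obtain ⟨k, hk⟩ := hV p hpV
    exact ⟨k, trivial, hk.trans hVU⟩
  · rintro ⟨k, -, hk⟩
    exact mem_of_superset ((isOpen_N p k).mem_nhds (mem_N p k)) hk

theorem continuous_fst_XX : Continuous (fun p : XX S => (p.1 : Bool)) := by
  rw [continuous_def]
  intro U _ p hp
  refine ⟨0, ?_⟩
  rintro q ⟨h, _⟩
  simp only [mem_preimage] at *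
  rwa [h]

theorem continuous_snd_XX : Continuous (fun p : XX S => (p.2 : C)) := by
  rw [continuous_iff_continuousAt]
  intro p
  rw [ContinuousAt, (nhds_basis_N p).tendsto_iff (isTopologicalBasis_cylinders (fun _ : ℕ => Bool)).nhds_hasBasis]
  rintro U ⟨⟨y, n, rfl⟩, hy⟩
  refine ⟨n, trivial, ?_⟩
  rintro q ⟨_, hq⟩
  have := hq.cyl
  intro i hi
  rw [this i hi, hy i hi]

end Run7.h272.ZD
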