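import Mathlib
import Pool.Agent.Run7.h272.ZD.Sys

/-!
# A limit of locally constant functions whose graph meets all large closed sets
-/

set_option autoImplicit false

open Set Filter Topology PiNat TopologicalSpace

namespace Run7.h272.ZD

theorem isClosed_cylinder (x : C) (n : ℕ) : IsClosed (cylinder x n) := by
  rw [cylinder_eq_pi]
  exact isClosed_set_pi fun i _ => isClosed_singleton

theorem isClopen_cylinder (x : C) (n : ℕ) : IsClopen (cylinder x n) :=
  ⟨isClosed_cylinder x n, isOpen_cylinder _ x n⟩

theorem exists_cylinder_subset {U : Set C} (hU : IsOpen U) {x : C} (hx : x ∈ U) :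
    ∃ n, cylinder x n ⊆ U := by
  obtain ⟨V, ⟨y, n, rfl⟩, hxV, hVU⟩ :=
    (isTopologicalBasis_cylinders (fun _ : ℕ => Bool)).exists_subset_of_mem_open hx hU
  refine ⟨n, ?_⟩
  rw [mem_cylinder_iff_eq.1 hxV]
  exact hVU

theorem mem_closure_iff_cylinder {s : Set C} {x : C} :
    x ∈ closure s ↔ ∀ n, ∃ y ∈ s, y ∈ cylinder x n := by
  constructor
  · intro h n
    obtain ⟨y, h1, h2⟩ := mem_closure_iff.1 h _ (isOpen_cylinder _ x n) (self_mem_cylinder x n)
    exact ⟨y, h2, h1⟩
  · intro h
    rw [mem_closure_iff]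
    intro U hU hx
    obtain ⟨n, hn⟩ := exists_cylinder_subset hU hx
    obtain ⟨y, h1, h2⟩ := h n
    exact ⟨y, hn h2, h1⟩

/-- Selection of the least points. -/
theorem select (D : Set (C × C)) (hD : IsClosed D) :
    ∃ g : ℕ → C → C, (∀ n x y, y ∈ cylinder x n → g n y = g n x) ∧
      ∀ x, ∃ z, Tendsto (fun n => g n x) atTop (𝓝 z) ∧ ((∃ z', (x, z') ∈ D) → (x, z) ∈ D) := by
  classical
  let e : C → ℝ := fun z => (cantorSetHomeomorphNatToBool.symm z : ℝ)
  have he : Continuous e := continuous_subtype_val.comp cantorSetHomeomorphNatToBool.symm.continuous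
  have hei : Function.Injective e :=
    Subtype.val_injective.comp cantorSetHomeomorphNatToBool.symm.injective
  let K : ℕ → C → Set C := fun n x => {z | ∃ y ∈ cylinder x n, (y, z) ∈ D}
  have hKc : ∀ n x, IsClosed (K n x) := by
    intro n x
    have h1 : IsCompact (D ∩ (cylinder x n ×ˢ (univ : Set C))) :=
      (hD.inter ((isClosed_cylinder x n).prod isClosed_univ)).isCompact
    have h2 : K n x = Prod.snd '' (D ∩ (cylinder x n ×ˢ (univ : Set C))) := by
      ext z
      constructor
      · rintro ⟨y, hy, hyz⟩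
        exact ⟨(y, z), ⟨hyz, hy, trivial⟩, rfl⟩
      · rintro ⟨⟨y, z'⟩, ⟨h3, h4, -⟩, rfl⟩
        exact ⟨y, h4, h3⟩
    rw [h2]
    exact (h1.image continuous_snd).isClosed
  have hKanti : ∀ x m n, m ≤ n → K n x ⊆ K m x := fun x m n h z ⟨y, hy, hyz⟩ =>
    ⟨y, cylinder_anti x h hy, hyz⟩
  let gm : Set C → C := fun K => if h : ∃ z ∈ K, ∀ w ∈ K, e z ≤ e w then h.choose else fun _ => false
  have hgm : ∀ K : Set C, IsClosed K → K.Nonempty → gm K ∈ K ∧ ∀ w ∈ K, e (gm K) ≤ e w := by
    intro K hK hne
    have h : ∃ z ∈ K, ∀ w ∈ K, e z ≤ e w := by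
      obtain ⟨z, hz, hm⟩ := hK.isCompact.exists_isMinOn hne he.continuousOn
      exact ⟨z, hz, fun w hw => hm hw⟩
    simp only [gm, dif_pos h]
    exact h.choose_spec
  refine ⟨fun n x => gm (K n x), fun n x y hy => ?_, fun x => ?_⟩
  · have : K n y = K n x := by simp only [K, mem_cylinder_iff_eq.1 hy]
    simp only [this]
  · have hmemD : ∀ z, (∀ n, z ∈ K n x) → (x, z) ∈ D := by
      intro z hz
      choose y hy hyz using hz
      have h1 : Tendsto y atTop (𝓝 x) := by
        rw [tendsto_pi_nhds]
        intro i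
        refine tendsto_const_nhds.congr' ?_
        filter_upwards [eventually_gt_atTop i] with n hn
        exact (hy n i hn).symm
      exact hD.mem_of_tendsto (h1.prodMk_nhds tendsto_const_nhds) (Eventually.of_forall hyz)
    by_cases hx : ∃ z', (x, z') ∈ D
    · have hne : ∀ n, (K n x).Nonempty := fun n =>
        ⟨hx.choose, x, self_mem_cylinder _ _, hx.choose_spec⟩
      have hcl : IsClosed {z | (x, z) ∈ D} := hD.preimage (by fun_prop)
      obtain ⟨hz1, hz2⟩ := hgm {z | (x, z) ∈ D} hcl hx
      set z := gm {z | (x, z) ∈ D} with hzdef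
      refine ⟨z, ?_, fun _ => hz1⟩
      refine le_nhds_of_unique_clusterPt (fun w hw => ?_)
      have hle : ∀ n, e (gm (K n x)) ≤ e z := fun n =>
        (hgm _ (hKc n x) (hne n)).2 z ⟨x, self_mem_cylinder _ _, hz1⟩
      have hwK : ∀ n, w ∈ K n x := by
        intro n
        have h1 : ∀ᶠ m in atTop, gm (K m x) ∈ K n x := by
          filter_upwards [eventually_ge_atTop n] with m hm
          exact hKanti x n m hm (hgm _ (hKc m x) (hne m)).1
        exact (hKc n x).mem_of_mapClusterPt hw h1
      have hwe : e w ≤ e z := by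
        have h2 : IsClosed {v | e v ≤ e z} := isClosed_le he continuous_const
        exact h2.mem_of_mapClusterPt hw (Eventually.of_forall hle)
      have h3 := hz2 w (hmemD w hwK)
      exact hei (le_antisymm hwe h3)
    · have : ∃ n, K n x = ∅ := by
        by_contra hne
        push Not at hne
        obtain ⟨z, hz⟩ := IsCompact.nonempty_iInter_of_sequence_nonempty_isCompact_isClosed
          (fun n => K n x) (fun n => hKanti x n (n + 1) (Nat.le_succ n))
          (fun n => hne n) ((hKc 0 x).isCompact) (fun n => hKc n x)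
        rw [mem_iInter] at hz
        exact hx ⟨z, hmemD z hz⟩
      obtain ⟨n, hn⟩ := this
      refine ⟨gm ∅, ?_, fun h => absurd h hx⟩
      refine tendsto_const_nhds.congr' ?_
      filter_upwards [eventually_ge_atTop n] with m hm
      have : K m x = ∅ := subset_empty_iff.1 (hn ▸ hKanti x n m hm)
      rw [this]

theorem mk_C : Cardinal.mk C = Cardinal.continuum := by simp

theorem uncountable_C : ¬ (univ : Set C).Countable := by
  intro h
  have h1 : Cardinal.mk C ≤ Cardinal.aleph0 := Cardinal.mk_le_aleph0_iff.2 (countable_univ_iff.1 h)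
  rw [mk_C] at h1
  exact absurd Cardinal.aleph0_lt_continuum (not_lt.2 h1)

/-- A pointwise limit of locally constant functions whose graph meets all closed sets which project
onto the Cantor set in uncountably many points. -/
theorem exists_limit (Q : Type) [MetricSpace Q] [CompactSpace Q] [Nonempty Q] :
    ∃ (h : ℕ → C → Q) (f : C → Q), (∀ n x y, y ∈ cylinder x n → h n y = h n x) ∧
      (∀ x, Tendsto (fun n => h n x) atTop (𝓝 (f x))) ∧
      ∀ E : Set (C × Q), IsClosed E → (∀ x, ∃ q, (x, q) ∈ E) → ¬ {x | (x, f x) ∈ E}.Countable := by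
  classical
  obtain ⟨ψ, hψ, hψs⟩ := exists_nat_bool_continuous_surjective_of_compact Q
  obtain ⟨O, hO⟩ : ∃ O : ℕ → Set (C × Q), IsTopologicalBasis (range O) := by
    obtain ⟨O, hO⟩ := (countable_countableBasis (C × Q)).exists_eq_range
      (by
        by_contra hne
        rw [not_nonempty_iff_eq_empty] at hne
        have hb := isBasis_countableBasis (C × Q)
        rw [hne] at hb
        obtain ⟨q⟩ := (inferInstance : Nonempty Q)
        obtain ⟨_, h, _⟩ := hb.exists_subset_of_mem_open
          (mem_univ ((fun _ => false, q) : C × Q)) isOpen_univ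
        exact h)
    exact ⟨O, hO ▸ isBasis_countableBasis (C × Q)⟩
  let D : Set (C × C) := {p | ∀ k, p.1 (2 * k) = true → (p.1, ψ p.2) ∉ O k}
  have hD : IsClosed D := by
    have h1 : D = ⋂ k, ({p : C × C | p.1 (2 * k) = false} ∪ {p | (p.1, ψ p.2) ∉ O k}) := by
      ext p
      simp only [D, mem_ofPred_eq, mem_iInter, mem_union]
      refine forall_congr' fun k => ?_
      cases p.1 (2 * k) <;> simp
    rw [h1]
    refine isClosed_iInter fun k => IsClosed.union ?_ ?_
    · exact isClosed_eq ((continuous_apply (2 * k)).comp continuous_fst) continuous_const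
    · have h2 : IsOpen (O k) := hO.isOpen (mem_range_self k)
      exact h2.isClosed_compl.preimage (continuous_fst.prodMk (hψ.comp continuous_snd))
  obtain ⟨g, hg1, hg2⟩ := select D hD
  choose z hz1 hz2 using hg2
  refine ⟨fun n x => ψ (g n x), fun x => ψ (z x), fun n x y hy => by simp only [hg1 n x y hy],
    fun x => (hψ.tendsto (z x)).comp (hz1 x), fun E hE hEp hc => ?_⟩
  -- the points which code `E`
  let w : C → C := fun c n => if n % 2 = 0 then decide (Disjoint (O (n / 2)) E) else c (n / 2)
  have hw : Function.Injective w := by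
    intro a b hab
    funext n
    have := congrFun hab (2 * n + 1)
    simp only [w] at this
    rw [if_neg (by omega), if_neg (by omega), show (2 * n + 1) / 2 = n by omega] at this
    exact this
  have hw2 : ∀ c k, w c (2 * k) = true ↔ Disjoint (O k) E := by
    intro c k
    simp only [w]
    rw [if_pos (by omega), show 2 * k / 2 = k by omega]
    simp
  have h3 : ∀ c, w c ∈ {x | (x, ψ (z x)) ∈ E} := by
    intro c
    have h4 : (w c, z (w c)) ∈ D := by
      refine hz2 (w c) ?_
      obtain ⟨q, hq⟩ := hEp (w c)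
      obtain ⟨z', rfl⟩ := hψs q
      refine ⟨z', fun k hk hmem => ?_⟩
      exact Set.disjoint_left.1 ((hw2 c k).1 hk) hmem hq
    by_contra hcon
    obtain ⟨_, ⟨k, rfl⟩, h5, h6⟩ := hO.exists_subset_of_mem_open
      (show (w c, ψ (z (w c))) ∈ Eᶜ from hcon) hE.isOpen_compl
    exact h4 k ((hw2 c k).2 (Set.disjoint_left.2 fun p hp hpE => h6 hp hpE)) h5
  refine uncountable_C ?_
  have h4 := hc.preimage hw
  refine h4.mono fun c _ => h3 c

end Run7.h272.ZD
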