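import Mathlib
import Pool.Agent.Run7.h272.ZD.Code

/-!
# Disjoint selections, and large closed sets in the square of the Cantor set
-/

set_option autoImplicit false

open Set Filter Topology PiNat Cardinal

namespace Run7.h272.ZD

/-- the index set of the transfinite constructions -/
abbrev W : Type := (continuum.{0}).ord.ToType

theorem mk_W : #W = continuum := by simp

theorem mk_Iio_W (i : W) : #(Iio i) < continuum := by
  have h : ord #W = Ordinal.type (· < · : W → W → Prop) := by simp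
  have h2 := mk_Iio_lt i h
  rwa [mk_W] at h2

theorem exists_bound (a : ℕ → W) : ∃ b, ∀ n, a n < b := by
  by_contra hcon
  push Not at hcon
  have h1 : IsCofinal (range a) := fun b => by
    obtain ⟨n, hn⟩ := hcon b
    exact ⟨a n, mem_range_self n, hn⟩
  have h2 := Order.cof_le h1
  have h3 : ℵ₀ < Order.cof W := by
    rw [Ordinal.cof_toType]
    have := lt_cof_ord_power (a := ℵ₀) (b := 2) le_rfl one_lt_two
    rwa [two_power_aleph0] at this
  have h4 : #(range a) ≤ ℵ₀ := mk_le_aleph0_iff.2 (countable_range a).to_subtype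
  exact absurd (h3.trans_le (h2.trans h4)) (lt_irrefl _)

theorem exists_selection {T α : Type} (hT : #T ≤ continuum) (P : T → Set (α × α))
    (hP : ∀ t, ∀ U : Set α, #U < continuum → ∃ p ∈ P t, p.1 ∉ U ∧ p.2 ∉ U) :
    ∃ g : T → α × α, (∀ t, g t ∈ P t) ∧ ∀ s t, s ≠ t →
      (g s).1 ≠ (g t).1 ∧ (g s).1 ≠ (g t).2 ∧ (g s).2 ≠ (g t).1 ∧ (g s).2 ≠ (g t).2 := by
  classical
  obtain ⟨ι⟩ : Nonempty (T ↪ W) := by
    rw [← Cardinal.le_def, mk_W]
    exact hT
  let r : T → T → Prop := fun s t => ι s < ι t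
  have hr : WellFounded r := InvImage.wf ι wellFounded_lt
  have hcard : ∀ t, #{s // r s t} < continuum := by
    intro t
    refine lt_of_le_of_lt ?_ (mk_Iio_W (ι t))
    exact mk_le_of_injective (f := fun s : {s // r s t} => (⟨ι s.1, s.2⟩ : Iio (ι t)))
      fun a b hab => Subtype.ext (ι.injective (by simpa using hab))
  have hU : ∀ t (ih : {s // r s t} → α × α),
      #({a : α | ∃ s, a = (ih s).1 ∨ a = (ih s).2} : Set α) < continuum := by
    intro t ih
    have h1 : ({a : α | ∃ s, a = (ih s).1 ∨ a = (ih s).2} : Set α) =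
        range (fun s => (ih s).1) ∪ range (fun s => (ih s).2) := by
      ext a
      simp only [mem_ofPred_eq, mem_union, mem_range]
      constructor
      · rintro ⟨s, h | h⟩
        · exact Or.inl ⟨s, h.symm⟩
        · exact Or.inr ⟨s, h.symm⟩
      · rintro (⟨s, h⟩ | ⟨s, h⟩)
        · exact ⟨s, Or.inl h.symm⟩
        · exact ⟨s, Or.inr h.symm⟩
    rw [h1]
    refine (mk_union_le _ _).trans_lt ?_
    exact add_lt_of_lt aleph0_le_continuum (mk_range_le.trans_lt (hcard t))
      (mk_range_le.trans_lt (hcard t))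
  let g : T → α × α := hr.fix fun t ih => (hP t _ (hU t fun s => ih s.1 s.2)).choose
  have hg : ∀ t, g t ∈ P t ∧ (g t).1 ∉ {a : α | ∃ s : {s // r s t}, a = (g s.1).1 ∨ a = (g s.1).2} ∧
      (g t).2 ∉ {a : α | ∃ s : {s // r s t}, a = (g s.1).1 ∨ a = (g s.1).2} := by
    intro t
    have h1 : g t = (hP t _ (hU t fun s => g s.1)).choose := hr.fix_eq _ t
    rw [h1]
    exact (hP t _ (hU t fun s => g s.1)).choose_spec
  refine ⟨g, fun t => (hg t).1, ?_⟩
  have key : ∀ s t, r s t →
      (g s).1 ≠ (g t).1 ∧ (g s).1 ≠ (g t).2 ∧ (g s).2 ≠ (g t).1 ∧ (g s).2 ≠ (g t).2 := by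
    intro s t hst
    obtain ⟨_, h1, h2⟩ := hg t
    exact ⟨fun h => h1 ⟨⟨s, hst⟩, Or.inl h.symm⟩, fun h => h2 ⟨⟨s, hst⟩, Or.inl h.symm⟩,
      fun h => h1 ⟨⟨s, hst⟩, Or.inr h.symm⟩, fun h => h2 ⟨⟨s, hst⟩, Or.inr h.symm⟩⟩
  intro s t hst
  rcases lt_trichotomy (ι s) (ι t) with h | h | h
  · exact key s t h
  · exact absurd (ι.injective h) hst
  · obtain ⟨h1, h2, h3, h4⟩ := key t s h
    exact ⟨h1.symm, h3.symm, h2.symm, h4.symm⟩

/-- covered by countably many lines -/
def Small (E : Set (C × C)) : Prop := ∃ H : Set C, H.Countable ∧ ∀ p ∈ E, p.1 ∈ H ∨ p.2 ∈ H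

theorem Small.mono {E F : Set (C × C)} (hF : Small F) (h : E ⊆ F) : Small E := by
  obtain ⟨H, h1, h2⟩ := hF
  exact ⟨H, h1, fun p hp => h2 p (h hp)⟩

theorem Small.iUnion {ι : Type} [Countable ι] {E : ι → Set (C × C)} (h : ∀ i, Small (E i)) :
    Small (⋃ i, E i) := by
  choose H h1 h2 using h
  refine ⟨⋃ i, H i, countable_iUnion h1, fun p hp => ?_⟩
  obtain ⟨i, hi⟩ := mem_iUnion.1 hp
  rcases h2 i p hi with h | h
  · exact Or.inl (mem_iUnion.2 ⟨i, h⟩)
  · exact Or.inr (mem_iUnion.2 ⟨i, h⟩)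

theorem Small.union {E F : Set (C × C)} (hE : Small E) (hF : Small F) : Small (E ∪ F) := by
  rw [union_eq_iUnion]
  exact Small.iUnion fun b => by cases b <;> simpa

/-- codes of cylinders -/
abbrev J : Type := Σ n : ℕ, Fin n → Bool

def cy (w : J) : Set C := {y | ∀ i : Fin w.1, y i = w.2 i}

theorem cy_res (x : C) (n : ℕ) : cy ⟨n, fun i => x i⟩ = cylinder x n := by
  ext y
  simp only [cy, mem_ofPred_eq, mem_cylinder_iff]
  exact ⟨fun h i hi => h ⟨i, hi⟩, fun h i => h i i.2⟩

theorem isClopen_cy (w : J) : IsClopen (cy w) := by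
  obtain ⟨n, w⟩ := w
  have : cy ⟨n, w⟩ = cylinder (fun i => if h : i < n then w ⟨i, h⟩ else false) n := by
    rw [← cy_res]
    congr 2
    funext i
    simp
  rw [this]
  exact isClopen_cylinder _ _

/-- a box -/
def box (p : C × C) (n : ℕ) : Set (C × C) := cylinder p.1 n ×ˢ cylinder p.2 n

theorem exists_perfect {E : Set (C × C)} (hE : IsClosed E) (hs : ¬ Small E) :
    ∃ h : C → C × C, (∀ b, h b ∈ E) ∧ (∀ b b', b ≠ b' → (h b).1 ≠ (h b').1) ∧
      ∀ b b', b ≠ b' → (h b).2 ≠ (h b').2 := by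
  classical
  let E' : Set (C × C) := {p ∈ E | ∀ n, ¬ Small (E ∩ box p n)}
  have h1 : Small (E \ E') := by
    have h2 : Small (⋃ w : {w : J × J // Small (E ∩ (cy w.1 ×ˢ cy w.2))},
        (E ∩ (cy w.1.1 ×ˢ cy w.1.2))) := Small.iUnion fun w => w.2
    refine h2.mono ?_
    rintro p ⟨hp, hp'⟩
    have h3 : ∃ n, Small (E ∩ box p n) := by
      by_contra hcon
      push Not at hcon
      exact hp' ⟨hp, hcon⟩
    obtain ⟨n, hn⟩ := h3
    rw [box, ← cy_res, ← cy_res] at hn
    refine mem_iUnion.2 ⟨⟨(⟨n, fun i => p.1 i⟩, ⟨n, fun i => p.2 i⟩), hn⟩, hp, ?_⟩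
    simp only [cy_res]
    exact ⟨self_mem_cylinder _ _, self_mem_cylinder _ _⟩
  have h2 : ∀ p ∈ E', ∀ n, ∃ q ∈ E', q ∈ box p n ∧ q.1 ≠ p.1 ∧ q.2 ≠ p.2 := by
    intro p hp n
    by_contra hcon
    push Not at hcon
    apply hp.2 n
    have h3 : Small ({p.1} ×ˢ (univ : Set C) ∪ (univ : Set C) ×ˢ {p.2}) :=
      ⟨{p.1, p.2}, by simp, by rintro q (hq | hq) <;> simp at hq <;> simp [hq]⟩
    refine (h1.union h3).mono ?_
    rintro q ⟨hq, hqb⟩
    by_cases hq' : q ∈ E'
    · right
      have := hcon q hq' hqb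
      by_cases h4 : q.1 = p.1
      · left; exact ⟨h4, trivial⟩
      · right; exact ⟨trivial, this h4⟩
    · left
      exact ⟨hq, hq'⟩
  obtain ⟨p0, hp0⟩ : E'.Nonempty := by
    by_contra hcon
    rw [not_nonempty_iff_eq_empty] at hcon
    rw [hcon, sdiff_empty] at h1
    exact hs h1
  choose! q hq1 hq2 hq3 hq4 using h2
  -- the scheme
  let lev : C × C → ℕ → ℕ := fun p n =>
    max (n + 1) (max (firstDiff (q p n).1 p.1 + 1) (firstDiff (q p n).2 p.2 + 1))
  let st : C → ℕ → (C × C) × ℕ := fun b k =>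
    Nat.rec (p0, 0) (fun k s => (if b k then q s.1 s.2 else s.1, lev s.1 s.2)) k
  have st0 : ∀ b, st b 0 = (p0, 0) := fun b => rfl
  have sts : ∀ b k, st b (k + 1) =
      (if b k then q (st b k).1 (st b k).2 else (st b k).1, lev (st b k).1 (st b k).2) :=
    fun b k => rfl
  have hmem : ∀ b k, (st b k).1 ∈ E' := by
    intro b k
    induction k with
    | zero => exact hp0
    | succ k ih =>
      rw [sts]
      by_cases hb : b k
      · simp only [hb, if_true]; exact hq1 _ ih _
      · simp only [hb]; exact ih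
  have hlev : ∀ b k, (st b k).2 < (st b (k + 1)).2 := by
    intro b k
    rw [sts]
    exact lt_of_lt_of_le (Nat.lt_succ_self _) (le_max_left _ _)
  have hlev2 : ∀ b k, k ≤ (st b k).2 := by
    intro b k
    induction k with
    | zero => exact Nat.zero_le _
    | succ k ih => exact lt_of_le_of_lt ih (hlev b k)
  have hmono : ∀ b, Monotone fun k => (st b k).2 := fun b =>
    monotone_nat_of_le_succ fun k => (hlev b k).le
  have hbox1 : ∀ b k, (st b (k + 1)).1 ∈ box (st b k).1 (st b k).2 := by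
    intro b k
    rw [sts]
    by_cases hb : b k
    · simp only [hb, if_true]; exact hq2 _ (hmem b k) _
    · simp only [hb]
      exact ⟨self_mem_cylinder _ _, self_mem_cylinder _ _⟩
  have hbox : ∀ b k j, k ≤ j → (st b j).1 ∈ box (st b k).1 (st b k).2 := by
    intro b k j hkj
    induction j, hkj using Nat.le_induction with
    | base => exact ⟨self_mem_cylinder _ _, self_mem_cylinder _ _⟩
    | succ j hj ih =>
      have h3 := hbox1 b j
      have h4 : (st b k).2 ≤ (st b j).2 := hmono b hj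
      exact ⟨fun i hi => by rw [h3.1 i (by omega), ih.1 i hi],
        fun i hi => by rw [h3.2 i (by omega), ih.2 i hi]⟩
  let h : C → C × C := fun b => (fun i => (st b (i + 1)).1.1 i, fun i => (st b (i + 1)).1.2 i)
  have hh : ∀ b k, h b ∈ box (st b k).1 (st b k).2 := by
    intro b k
    have h5 : ∀ i, i < (st b k).2 → (st b (i + 1)).1.1 i = (st b k).1.1 i ∧
        (st b (i + 1)).1.2 i = (st b k).1.2 i := by
      intro i hi
      rcases le_total k (i + 1) with h6 | h6
      · have := hbox b k (i + 1) h6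
        exact ⟨this.1 i hi, this.2 i hi⟩
      · have := hbox b (i + 1) k h6
        have h7 := hlev2 b (i + 1)
        exact ⟨(this.1 i (by omega)).symm, (this.2 i (by omega)).symm⟩
    exact ⟨fun i hi => (h5 i hi).1, fun i hi => (h5 i hi).2⟩
  -- separation
  have hsep : ∀ b b' : C, b ≠ b' → ∃ (u v : C × C) (n : ℕ), h b ∈ box u n ∧ h b' ∈ box v n ∧
      u.1 ≠ v.1 ∧ u.2 ≠ v.2 ∧ firstDiff u.1 v.1 < n ∧ firstDiff u.2 v.2 < n := by
    have key : ∀ b b' : C, b ≠ b' → b (firstDiff b b') = true → b' (firstDiff b b') = false →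
        ∃ (u v : C × C) (n : ℕ), h b ∈ box u n ∧ h b' ∈ box v n ∧
        u.1 ≠ v.1 ∧ u.2 ≠ v.2 ∧ firstDiff u.1 v.1 < n ∧ firstDiff u.2 v.2 < n := by
      intro b b' hne hb hb'
      have heq : ∀ j ≤ firstDiff b b', st b j = st b' j := by
        intro j hj
        induction j with
        | zero => rfl
        | succ j ih =>
          rw [sts, sts, ih (by omega), eq_below_fd (x := b) (y := b') (by omega)]
      set k := firstDiff b b' with hk
      have e1 := sts b k
      have e2 := sts b' k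
      rw [heq k le_rfl] at e1
      simp only [hb, hb', if_true, Bool.false_eq_true, if_false] at e1 e2
      have i1 := hh b (k + 1)
      have i2 := hh b' (k + 1)
      rw [e1] at i1
      rw [e2] at i2
      refine ⟨_, _, _, i1, i2, hq3 _ (hmem b' k) _, hq4 _ (hmem b' k) _, ?_, ?_⟩
      · exact lt_of_lt_of_le (Nat.lt_succ_self _) ((le_max_left _ _).trans (le_max_right _ _))
      · exact lt_of_lt_of_le (Nat.lt_succ_self _) ((le_max_right _ _).trans (le_max_right _ _))
    intro b b' hne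
    have h8 := ne_at_fd hne
    cases hb : b (firstDiff b b') with
    | true =>
      rw [hb] at h8
      exact key b b' hne hb (by simpa using h8.symm)
    | false =>
      rw [hb] at h8
      have h9 : b' (firstDiff b b') = true := by
        cases hc : b' (firstDiff b b') with
        | true => rfl
        | false => exact absurd hc.symm h8
      rw [firstDiff_comm] at hb h9
      obtain ⟨u, v, n, a1, a2, a3, a4, a5, a6⟩ := key b' b hne.symm h9 hb
      exact ⟨v, u, n, a2, a1, a3.symm, a4.symm, by rwa [firstDiff_comm], by rwa [firstDiff_comm]⟩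
  refine ⟨h, fun b => ?_, fun b b' hne heq => ?_, fun b b' hne heq => ?_⟩
  · rw [← hE.closure_eq, mem_closure_iff_nhds_basis
      ((isTopologicalBasis_cylinders (fun _ : ℕ => Bool)).prod
        (isTopologicalBasis_cylinders (fun _ : ℕ => Bool))).nhds_hasBasis]
    rintro U ⟨⟨_, ⟨y, n, rfl⟩, _, ⟨z, m, rfl⟩, rfl⟩, hy, hz⟩
    refine ⟨(st b (max n m)).1, (hmem b _).1, ?_, ?_⟩
    · have h3 := hh b (max n m)
      have h4 := hlev2 b (max n m)
      intro i hi
      rw [← h3.1 i (lt_of_lt_of_le hi ((le_max_left _ _).trans h4)), hy i hi]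
    · have h3 := hh b (max n m)
      have h4 := hlev2 b (max n m)
      intro i hi
      rw [← h3.2 i (lt_of_lt_of_le hi ((le_max_right _ _).trans h4)), hz i hi]
  · obtain ⟨u, v, n, a1, a2, a3, a4, a5, a6⟩ := hsep b b' hne
    have := ne_at_fd a3
    rw [← a1.1 _ a5, ← a2.1 _ a5, heq] at this
    exact this rfl
  · obtain ⟨u, v, n, a1, a2, a3, a4, a5, a6⟩ := hsep b b' hne
    have := ne_at_fd a4
    rw [← a1.2 _ a6, ← a2.2 _ a6, heq] at this
    exact this rfl

/-- In a closed set which is not small there is a point with both coordinates outside a given set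
of size less than the continuum. -/
theorem exists_avoid {E : Set (C × C)} (hE : IsClosed E) (hs : ¬ Small E) (U : Set C)
    (hU : #U < continuum) : ∃ p ∈ E, p.1 ∉ U ∧ p.2 ∉ U := by
  obtain ⟨h, h1, h2, h3⟩ := exists_perfect hE hs
  by_contra hcon
  push Not at hcon
  have h4 : (univ : Set C) ⊆ {b | (h b).1 ∈ U} ∪ {b | (h b).2 ∈ U} := by
    intro b _
    by_cases h5 : (h b).1 ∈ U
    · exact Or.inl h5
    · exact Or.inr (by
        by_contra h6
        exact h6 (by simpa using hcon (h b) (h1 b) h5))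
  have h5 : #({b | (h b).1 ∈ U} : Set C) ≤ #U :=
    mk_le_of_injective (f := fun b : ({b | (h b).1 ∈ U} : Set C) => (⟨(h b.1).1, b.2⟩ : U))
      fun a b hab => Subtype.ext (by
        by_contra hne
        exact h2 _ _ hne (by simpa using hab))
  have h6 : #({b | (h b).2 ∈ U} : Set C) ≤ #U :=
    mk_le_of_injective (f := fun b : ({b | (h b).2 ∈ U} : Set C) => (⟨(h b.1).2, b.2⟩ : U))
      fun a b hab => Subtype.ext (by
        by_contra hne
        exact h3 _ _ hne (by simpa using hab))
  have h7 : #(univ : Set C) < continuum := by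
    refine (mk_le_mk_of_subset h4).trans_lt ((mk_union_le _ _).trans_lt ?_)
    exact add_lt_of_lt aleph0_le_continuum (h5.trans_lt hU) (h6.trans_lt hU)
  rw [mk_univ, mk_C] at h7
  exact lt_irrefl _ h7

theorem exists_avoid_meas {X : Set C} (hX : MeasurableSet X) (hc : ¬ X.Countable) (U : Set C)
    (hU : #U < continuum) : ∃ x ∈ X, x ∉ U := by
  have h1 : #X = continuum := by
    have := hX.standardBorel
    have e := PolishSpace.measurableEquivNatBoolOfNotCountable (α := X)
      (fun h => hc (countable_coe_iff.1 h))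
    have := mk_congr e.toEquiv
    rw [this, mk_C]
  by_contra hcon
  push Not at hcon
  have h2 : #X ≤ #U := mk_le_mk_of_subset hcon
  rw [h1] at h2
  exact absurd hU (not_lt.2 h2)

end Run7.h272.ZD
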