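import Mathlib
import Pool.Agent.Run7.h272.ZD.Sel

/-!
# The sequences attached to a pair of points and a countable family of tasks
-/

set_option autoImplicit false

open Set Filter Topology PiNat

namespace Run7.h272.ZD

theorem exists_purposes : ∃ e : ℕ → ℕ × Bool × Bool, ∀ p N, ∃ t ≥ N, e t = p := by
  refine ⟨fun t => ((Encodable.decode (α := ℕ × Bool × Bool) (Nat.unpair t).1).getD (0, false, false)),
    fun p N => ⟨Nat.pair (Encodable.encode p) N, Nat.right_le_pair _ _, ?_⟩⟩
  simp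

/-- the enumeration of the purposes -/
noncomputable def pur : ℕ → ℕ × Bool × Bool := exists_purposes.choose

theorem pur_spec : ∀ p N, ∃ t ≥ N, pur t = p := exists_purposes.choose_spec

variable {Q : Type} [MetricSpace Q] (h : ℕ → C → Q) (f : C → Q)

open Classical in
noncomputable def F0 (x y : C) : Q := if x = y then f x else h (firstDiff x y) x

/-- The point `A m n` may be used at `(x, y)` for the labels `i, j` with precision `M`. -/
def G (x y : C) (A : ℕ → ℕ → C × C) (m : ℕ) (i j : Bool) (M n : ℕ) : Prop :=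
  (A m n).1 ∈ cylinder x M ∧ (A m n).2 ∈ cylinder y M ∧
    (i ≠ j → x = y → dist (F0 h f (A m n).1 (A m n).2) (f x) < (1 / 2) ^ M)

def Act (x y : C) (A : ℕ → ℕ → C × C) (t : ℕ) : Prop :=
  ∀ M, ∃ n, G h f x y A (pur t).1 (pur t).2.1 (pur t).2.2 M n

variable {h f}

theorem exists_items (hlim : ∀ x, Tendsto (fun n => h n x) atTop (𝓝 (f x))) (x y : C)
    (A : ℕ → ℕ → C × C) :
    ∃ (c : ℕ → C × C) (M L : ℕ → ℕ), ∀ t, 2 * t + 2 ≤ M t ∧ M t < L t ∧ L t ≤ M (t + 1) ∧
      (x ≠ y → firstDiff x y < M t) ∧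
      (Act h f x y A t → (∃ n, c t = A (pur t).1 n ∧
        G h f x y A (pur t).1 (pur t).2.1 (pur t).2.2 (M t) n) ∧
        firstDiff (c t).1 x < L t ∧ firstDiff (c t).2 y < L t ∧
        firstDiff (c t).1 (c t).2 < L t ∧
        ∀ l ≥ L t, dist (h l (c t).1) (f (c t).1) ≤ (1 / 2) ^ (2 * t)) := by
  classical
  have step : ∀ (t M : ℕ), ∃ (c : C × C) (L : ℕ), M < L ∧
      (Act h f x y A t → (∃ n, c = A (pur t).1 n ∧
        G h f x y A (pur t).1 (pur t).2.1 (pur t).2.2 M n) ∧
        firstDiff c.1 x < L ∧ firstDiff c.2 y < L ∧ firstDiff c.1 c.2 < L ∧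
        ∀ l ≥ L, dist (h l c.1) (f c.1) ≤ (1 / 2) ^ (2 * t)) := by
    intro t M
    by_cases ha : Act h f x y A t
    · obtain ⟨n, hn⟩ := ha M
      set c := A (pur t).1 n with hc
      have h1 : ∀ᶠ l in atTop, dist (h l c.1) (f c.1) < (1 / 2) ^ (2 * t) :=
        (hlim c.1).eventually (Metric.ball_mem_nhds _ (by positivity))
      obtain ⟨l0, hl0⟩ := eventually_atTop.1 h1
      refine ⟨c, max l0 (max (M + 1) (max (firstDiff c.1 x + 1)
        (max (firstDiff c.2 y + 1) (firstDiff c.1 c.2 + 1)))), ?_, fun _ => ⟨⟨n, rfl, hn⟩, ?_, ?_,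
        ?_, fun l hl => (hl0 l (le_trans (le_max_left _ _) hl)).le⟩⟩
      · simp only [lt_max_iff]; omega
      · simp only [lt_max_iff]; omega
      · simp only [lt_max_iff]; omega
      · simp only [lt_max_iff]; omega
    · exact ⟨(x, y), M + 1, Nat.lt_succ_self _, fun h => absurd h ha⟩
  choose c L hL hc using step
  let Lv : ℕ → ℕ := fun t => Nat.rec (L 0 (max 2 (firstDiff x y + 1)))
    (fun t l => L (t + 1) (max (2 * (t + 1) + 2) l)) t
  have Lv0 : Lv 0 = L 0 (max 2 (firstDiff x y + 1)) := rfl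
  have Lvs : ∀ t, Lv (t + 1) = L (t + 1) (max (2 * (t + 1) + 2) (Lv t)) := fun t => rfl
  let M : ℕ → ℕ := fun t => if t = 0 then max 2 (firstDiff x y + 1) else
    max (2 * t + 2) (Lv (t - 1))
  have hM : ∀ t, Lv t = L t (M t) := by
    intro t
    cases t with
    | zero => simp [M, Lv0]
    | succ t => rw [Lvs]; simp [M]
  have hM1 : ∀ t, Lv t ≤ M (t + 1) := fun t => by
    simp only [M, Nat.add_one_ne_zero, if_false, Nat.add_sub_cancel]
    exact le_max_right _ _
  have hM2 : ∀ t, firstDiff x y < M t := by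
    intro t
    induction t with
    | zero => simp only [M, if_true]; exact lt_of_lt_of_le (Nat.lt_succ_self _) (le_max_right _ _)
    | succ t ih =>
      refine lt_of_lt_of_le ?_ (hM1 t)
      rw [hM]
      exact ih.trans (hL _ _)
  refine ⟨fun t => c t (M t), M, Lv, fun t => ⟨?_, ?_, hM1 t, fun _ => hM2 t, fun ha => ?_⟩⟩
  · simp only [M]
    split_ifs with h0
    · subst h0; simp
    · exact le_max_left _ _
  · rw [hM]; exact hL _ _
  · rw [hM]; exact hc t (M t) ha

end Run7.h272.ZD
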