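import Mathlib
import Pool.Agent.Run7.h272.ZD.Items

/-!
# Existence of the data
-/

set_option autoImplicit false

open Set Filter Topology PiNat Cardinal TopologicalSpace

namespace Run7.h272.ZD

/-- The pair `(x, y)` is handled with respect to a family of sequences of pairs. -/
def Handled {Q : Type} [MetricSpace Q] (S : Sys Q) (A : ℕ → ℕ → C × C) (x y : C) : Prop :=
  ∀ m i j, (∀ M, ∃ n, G S.h S.f x y A m i j M n) →
    ∀ k, ∃ n, S.V i x k (A m n).1 ∧ S.V j y k (A m n).2

theorem exists_sys {Q : Type} [MetricSpace Q] {h : ℕ → C → Q} {f : C → Q}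
    (hloc : ∀ n x y, y ∈ cylinder x n → h n y = h n x)
    (hlim : ∀ x, Tendsto (fun n => h n x) atTop (𝓝 (f x)))
    (r : C → C → Prop) (wf : WellFounded r)
    (T : Type) (A : T → ℕ → ℕ → C × C) (g : T → C × C)
    (hbel : ∀ t m n, r (A t m n).1 (g t).1 ∧ r (A t m n).2 (g t).1 ∧ r (A t m n).1 (g t).2 ∧
      r (A t m n).2 (g t).2)
    (hdis : ∀ s t, s ≠ t →
      (g s).1 ≠ (g t).1 ∧ (g s).1 ≠ (g t).2 ∧ (g s).2 ≠ (g t).1 ∧ (g s).2 ≠ (g t).2) :
    ∃ S : Sys Q, S.h = h ∧ S.f = f ∧ ∀ t, Handled S (A t) (g t).1 (g t).2 := by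
  classical
  have hir : ∀ x, ¬ r x x := fun x => by
    have := wf.irrefl
    exact this.irrefl x
  choose c M L hc using fun t => exists_items hlim (g t).1 (g t).2 (A t)
  -- the items of the center `z` in the task `t`
  let PT : T → ℕ → C := fun t n => if n % 2 = 0 then (c t (n / 2)).1 else (c t (n / 2)).2
  let LV : T → ℕ → ℕ := fun t n => L t (n / 2)
  let LAB : T → C → ℕ → Bool → Prop := fun t z n i =>
    Act h f (g t).1 (g t).2 (A t) (n / 2) ∧
      ((n % 2 = 0 ∧ z = (g t).1 ∧ (i = (pur (n / 2)).2.1 ∨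
        ((c t (n / 2)).1 = (c t (n / 2)).2 ∧ z = (g t).2 ∧ i = (pur (n / 2)).2.2))) ∨
      (n % 2 = 1 ∧ z = (g t).2 ∧ (c t (n / 2)).1 ≠ (c t (n / 2)).2 ∧ i = (pur (n / 2)).2.2))
  have huniq : ∀ x (hx : ∃ t, x = (g t).1 ∨ x = (g t).2) t, (x = (g t).1 ∨ x = (g t).2) →
      hx.choose = t := by
    intro x hx t ht
    by_contra hne
    obtain ⟨h1, h2, h3, h4⟩ := hdis _ _ hne
    rcases hx.choose_spec with h5 | h5 <;> rcases ht with h6 | h6
    · exact h1 (h5.symm.trans h6)
    · exact h2 (h5.symm.trans h6)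
    · exact h3 (h5.symm.trans h6)
    · exact h4 (h5.symm.trans h6)
  -- the items below the centers
  have hbelow : ∀ t s, Act h f (g t).1 (g t).2 (A t) s →
      r (c t s).1 (g t).1 ∧ r (c t s).2 (g t).1 ∧ r (c t s).1 (g t).2 ∧ r (c t s).2 (g t).2 := by
    intro t s ha
    obtain ⟨-, -, -, -, h5⟩ := hc t s
    obtain ⟨⟨n, hn, -⟩, -⟩ := h5 ha
    rw [hn]
    exact hbel t _ n
  have hMM : ∀ t s s', s < s' → L t s ≤ M t s' := by
    intro t s s' hss
    induction s', hss using Nat.le_induction with
    | base => exact (hc t s).2.2.1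
    | succ s' hs' ih =>
      exact ih.trans ((hc t s').2.1.le.trans (hc t s').2.2.1)
  -- the basic properties of an item
  have hitem : ∀ t z n i, LAB t z n i → r (PT t n) z ∧ PT t n ∈ cylinder z (M t (n / 2)) ∧
      firstDiff (PT t n) z < L t (n / 2) ∧ n < M t (n / 2) ∧ M t (n / 2) < L t (n / 2) := by
    intro t z n i hl
    obtain ⟨ha, hl⟩ := hl
    obtain ⟨h1, h2, h3, h4, h5⟩ := hc t (n / 2)
    obtain ⟨⟨k, hk, hG⟩, h6, h7, h8, h9⟩ := h5 ha
    obtain ⟨b1, b2, b3, b4⟩ := hbelow t (n / 2) ha
    obtain ⟨G1, G2, G3⟩ := hG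
    rw [← hk] at G1 G2 G3
    refine ⟨?_, ?_, ?_, by omega, h2⟩
    · rcases hl with ⟨h10, rfl, -⟩ | ⟨h10, rfl, -, -⟩
      · simp only [PT, h10, if_true]; exact b1
      · simp only [PT, h10]; exact b4
    · rcases hl with ⟨h10, rfl, -⟩ | ⟨h10, rfl, -, -⟩
      · simp only [PT, h10, if_true]; exact G1
      · simp only [PT, h10]; exact G2
    · rcases hl with ⟨h10, rfl, -⟩ | ⟨h10, rfl, -, -⟩
      · simp only [PT, h10, if_true]; exact h6
      · simp only [PT, h10]; exact h7
  let S : Sys Q :=
    { h := h, f := f, h_loc := hloc, h_lim := hlim, r := r, wf := wf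
      pt := fun x n => if hx : ∃ t, x = (g t).1 ∨ x = (g t).2 then PT hx.choose n else x
      lv := fun x n => if hx : ∃ t, x = (g t).1 ∨ x = (g t).2 then LV hx.choose n else 0
      lab := fun x n i => ∃ hx : ∃ t, x = (g t).1 ∨ x = (g t).2, LAB hx.choose x n i
      below := by
        rintro x n i ⟨hx, hl⟩
        simp only [dif_pos hx]
        exact (hitem _ _ _ _ hl).1
      near := by
        rintro x n i ⟨hx, hl⟩
        simp only [dif_pos hx]
        obtain ⟨-, h1, -, h2, -⟩ := hitem _ _ _ _ hl
        exact cylinder_anti _ h2.le h1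
      lv_lt := by
        rintro x n i ⟨hx, hl⟩
        simp only [dif_pos hx, LV]
        obtain ⟨-, -, -, h2, h3⟩ := hitem _ _ _ _ hl
        exact h2.trans h3
      off := by
        rintro x n i ⟨hx, hl⟩
        simp only [dif_pos hx, LV]
        obtain ⟨h0, -, h1, -, -⟩ := hitem _ _ _ _ hl
        intro hmem
        have hne : x ≠ PT hx.choose n := by
          intro he
          rw [← he] at h0
          exact hir x h0
        rw [firstDiff_comm] at h1
        exact absurd ((mem_cylinder_iff_le_firstDiff hne _).1 hmem) (not_le.2 h1)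
      disj := by
        rintro x n m i j ⟨hx, hl⟩ ⟨_, hl'⟩ hnm
        simp only [dif_pos hx, LV]
        obtain ⟨h0, h1, h2, h3, h4⟩ := hitem _ _ _ _ hl
        obtain ⟨h0', h1', h2', h3', h4'⟩ := hitem _ _ _ _ hl'
        set t := hx.choose with ht
        have hdist : ∀ (p q : C) (s s' : ℕ), s < s' → r p x → firstDiff p x < L t s →
            q ∈ cylinder x (M t s') → M t s' < L t s' →
            Disjoint (cylinder p (L t s)) (cylinder q (L t s')) := by
          intro p q s s' hss hpx hp hq hML
          rw [Set.disjoint_left]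
          intro u hu hu'
          have hne : p ≠ x := by
            rintro rfl
            exact hir _ hpx
          have h6 := hMM t s s' hss
          have h7 : firstDiff p x < M t s' := lt_of_lt_of_le hp h6
          have h8 := ne_at_fd hne
          rw [← hu _ hp, hu' _ (h7.trans hML), hq _ h7] at h8
          exact h8 rfl
        rcases lt_trichotomy (n / 2) (m / 2) with h5 | h5 | h5
        · exact hdist _ _ _ _ h5 h0 h2 h1' h4'
        · -- the same stage
          have hsame : ∀ (n m : ℕ) (i j : Bool), n % 2 = 0 → m % 2 = 1 → n / 2 = m / 2 →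
              LAB t x n i → LAB t x m j →
              Disjoint (cylinder (PT t n) (L t (n / 2))) (cylinder (PT t m) (L t (m / 2))) := by
            intro n m i j hn hm hnm hl hl'
            rcases hl' with ⟨ha, ⟨h6, -⟩ | ⟨-, -, hne, -⟩⟩
            · omega
            simp only [PT, hn, if_true, hm, one_ne_zero, if_false]
            rw [hnm]
            obtain ⟨-, -, -, h8, -⟩ := (hc t (m / 2)).2.2.2.2 ha
            rw [Set.disjoint_left]
            intro u hu hu'
            have h9 := ne_at_fd hne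
            rw [← hu _ h8, ← hu' _ h8] at h9
            exact h9 rfl
          rcases Nat.mod_two_eq_zero_or_one n with hn | hn <;>
            rcases Nat.mod_two_eq_zero_or_one m with hm | hm
          · omega
          · exact hsame n m i j hn hm h5 hl hl'
          · exact (hsame m n j i hm hn h5.symm hl' hl).symm
          · omega
        · exact (hdist _ _ _ _ h5 h0' h2' h1 h4).symm
      both := by
        rintro x n ⟨hx, hl⟩ ⟨_, hl'⟩
        simp only [dif_pos hx, LV]
        set t := hx.choose with ht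
        obtain ⟨ha, hl⟩ := hl
        obtain ⟨-, hl'⟩ := hl'
        obtain ⟨h1, h2, h3, h4, h5⟩ := hc t (n / 2)
        obtain ⟨⟨k, hk, hG⟩, h6, h7, h8, h9⟩ := h5 ha
        obtain ⟨G1, G2, G3⟩ := hG
        rw [← hk] at G1 G2 G3
        rcases hl with ⟨hn, hx1, hl⟩ | ⟨hn, hx2, hne, hl⟩
        · rcases hl' with ⟨-, -, hl'⟩ | ⟨hn', -⟩
          swap
          · omega
          have h10 : (c t (n / 2)).1 = (c t (n / 2)).2 ∧ x = (g t).2 ∧
              (pur (n / 2)).2.1 ≠ (pur (n / 2)).2.2 := by
            rcases hl with hl | ⟨e1, e2, e3⟩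
            · rcases hl' with hl' | ⟨e1, e2, e3⟩
              · exact absurd (hl.trans hl'.symm) (by simp)
              · exact ⟨e1, e2, by rw [← hl, ← e3]; simp⟩
            · rcases hl' with hl' | ⟨_, _, e3'⟩
              · exact ⟨e1, e2, by rw [← hl', ← e3]; simp⟩
              · exact absurd (e3.trans e3'.symm) (by simp)
          obtain ⟨e1, e2, e3⟩ := h10
          have h11 := G3 e3 (hx1.symm.trans e2)
          rw [← e1, F0, if_pos rfl, ← hx1] at h11
          have hn2 : 2 * (n / 2) = n := by omega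
          simp only [PT, hn, if_true]
          constructor
          · refine h11.le.trans (pow_le_pow_of_le_one (by norm_num) (by norm_num) ?_)
            omega
          · intro l hl
            have := h9 l hl
            rwa [hn2] at this
        · rcases hl' with ⟨hn', -⟩ | ⟨-, -, -, hl'⟩
          · omega
          · exact absurd (hl.trans hl'.symm) (by simp)
      cross := by
        rintro x n m ⟨hx, hl⟩ ⟨_, hl'⟩ hnm
        simp only [dif_pos hx]
        intro hfd
        set t := hx.choose with ht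
        obtain ⟨i0, i1, i2, i3, i4⟩ := hitem _ _ _ _ hl
        obtain ⟨j0, j1, j2, j3, j4⟩ := hitem _ _ _ _ hl'
        have hpx : PT t n ≠ x := fun h => hir x (by rw [h] at i0; exact i0)
        have hqx : PT t m ≠ x := fun h => hir x (by rw [h] at j0; exact j0)
        have k1 := (mem_cylinder_iff_le_firstDiff hpx _).1 i1
        have k2 := (mem_cylinder_iff_le_firstDiff hqx _).1 j1
        have h5 : n / 2 = m / 2 := by
          rcases lt_trichotomy (n / 2) (m / 2) with h5 | h5 | h5
          · have := hMM t _ _ h5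
            omega
          · exact h5
          · have := hMM t _ _ h5
            omega
        obtain ⟨ha, hl⟩ := hl
        obtain ⟨ha', hl'⟩ := hl'
        obtain ⟨h1, h2, h3, h4, h6⟩ := hc t (n / 2)
        obtain ⟨⟨k, hk, hG⟩, -⟩ := h6 ha
        obtain ⟨G1, G2, G3⟩ := hG
        rw [← hk] at G1 G2 G3
        have hp1 : (1 / 2 : ℝ) ^ (M t (n / 2)) ≤ (1 / 2) ^ (min n m) := by
          refine pow_le_pow_of_le_one (by norm_num) (by norm_num) ?_
          exact (min_le_left _ _).trans i3.le
        rcases hl with ⟨hn, hx1, hl⟩ | ⟨hn, hx2, hne, hl⟩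
        · rcases hl' with ⟨hm, -⟩ | ⟨hm, hx2, hne, hl'⟩
          · omega
          rw [← h5] at hne hl'
          have hl1 : false = (pur (n / 2)).2.1 := by
            rcases hl with hl | ⟨e1, -⟩
            · exact hl
            · exact absurd e1 hne
          have h11 := G3 (by rw [← hl1, ← hl']; simp) (hx1.symm.trans hx2)
          rw [F0, if_neg hne, ← hx1] at h11
          simp only [PT, hn, if_true, hm, one_ne_zero, if_false, ← h5]
          exact h11.le.trans hp1
        · rcases hl' with ⟨hm, hx1, hl'⟩ | ⟨hm, -⟩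
          swap
          · omega
          have hl1 : true = (pur (n / 2)).2.1 := by
            rw [← h5] at hl'
            rcases hl' with hl' | ⟨e1, -⟩
            · exact hl'
            · exact absurd e1 hne
          have h11 := G3 (by rw [← hl1, ← hl]; simp) (hx1.symm.trans hx2)
          rw [F0, if_neg hne, ← hx1] at h11
          simp only [PT, hn, if_true, hm, one_ne_zero, if_false, ← h5]
          have h12 : h (firstDiff (c t (n / 2)).2 (c t (n / 2)).1) (c t (n / 2)).2 =
              h (firstDiff (c t (n / 2)).1 (c t (n / 2)).2) (c t (n / 2)).1 := by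
            rw [firstDiff_comm]
            exact hloc _ _ _ fun i hi => (eq_below_fd hi).symm
          rw [h12]
          exact h11.le.trans hp1 }
  refine ⟨S, rfl, rfl, fun t m i j hact k => ?_⟩
  obtain ⟨s, hs, hps⟩ := pur_spec (m, i, j) k
  have ha : Act h f (g t).1 (g t).2 (A t) s := by
    intro M'
    rw [hps]
    exact hact M'
  obtain ⟨⟨n, hn, hG⟩, -⟩ := (hc t s).2.2.2.2 ha
  rw [hps] at hn
  have hx1 : ∃ t', (g t).1 = (g t').1 ∨ (g t).1 = (g t').2 := ⟨t, Or.inl rfl⟩
  have hx2 : ∃ t', (g t).2 = (g t').1 ∨ (g t).2 = (g t').2 := ⟨t, Or.inr rfl⟩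
  have ht1 : hx1.choose = t := huniq _ hx1 t (Or.inl rfl)
  have ht2 : hx2.choose = t := huniq _ hx2 t (Or.inr rfl)
  have e1 : (2 * s) / 2 = s := by omega
  have e2 : (2 * s + 1) / 2 = s := by omega
  refine ⟨n, ?_, ?_⟩
  · have hlab : S.lab (g t).1 (2 * s) i := by
      refine ⟨hx1, ?_⟩
      rw [ht1]
      refine ⟨by rw [e1]; exact ha, Or.inl ⟨by omega, rfl, Or.inl (by rw [e1, hps])⟩⟩
    have hpt : S.pt (g t).1 (2 * s) = (A t m n).1 := by
      show (if hx : ∃ t', (g t).1 = (g t').1 ∨ (g t).1 = (g t').2 then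
        PT hx.choose (2 * s) else (g t).1) = _
      rw [dif_pos hx1, ht1]
      simp only [PT]
      rw [if_pos (by omega), e1, hn]
    refine Sys.V.step _ _ (2 * s) _ (by omega) hlab ?_
    rw [hpt]
    exact Sys.V.refl _ _
  · by_cases hab : (c t s).1 = (c t s).2
    · have hxy : (g t).1 = (g t).2 := by
        by_contra hne
        have h7 := (hc t s).2.2.2.1 hne
        obtain ⟨G1, G2, -⟩ := hG
        have h8 := ne_at_fd hne
        rw [hps] at G1 G2
        rw [← G1 _ h7, ← G2 _ h7, ← hn, hab] at h8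
        exact h8 rfl
      have hlab : S.lab (g t).2 (2 * s) j := by
        refine ⟨hx2, ?_⟩
        rw [ht2]
        refine ⟨by rw [e1]; exact ha, Or.inl ⟨by omega, hxy.symm, Or.inr ⟨by rw [e1]; exact hab,
          rfl, by rw [e1, hps]⟩⟩⟩
      have hpt : S.pt (g t).2 (2 * s) = (A t m n).2 := by
        show (if hx : ∃ t', (g t).2 = (g t').1 ∨ (g t).2 = (g t').2 then
          PT hx.choose (2 * s) else (g t).2) = _
        rw [dif_pos hx2, ht2]
        simp only [PT]
        rw [if_pos (by omega), e1, hab, hn]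
      refine Sys.V.step _ _ (2 * s) _ (by omega) hlab ?_
      rw [hpt]
      exact Sys.V.refl _ _
    · have hlab : S.lab (g t).2 (2 * s + 1) j := by
        refine ⟨hx2, ?_⟩
        rw [ht2]
        refine ⟨by rw [e2]; exact ha, Or.inr ⟨by omega, rfl, by rw [e2]; exact hab,
          by rw [e2, hps]⟩⟩
      have hpt : S.pt (g t).2 (2 * s + 1) = (A t m n).2 := by
        show (if hx : ∃ t', (g t).2 = (g t').1 ∨ (g t).2 = (g t').2 then
          PT hx.choose (2 * s + 1) else (g t).2) = _
        rw [dif_pos hx2, ht2]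
        simp only [PT]
        rw [if_neg (by omega), e2, hn]
      refine Sys.V.step _ _ (2 * s + 1) _ (by omega) hlab ?_
      rw [hpt]
      exact Sys.V.refl _ _

end Run7.h272.ZD
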