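import Mathlib
import Pool.Agent.Run7.h272.ZD.Data

/-!
# Existence of a system which handles all tasks
-/

set_option autoImplicit false

open Set Filter Topology PiNat Cardinal TopologicalSpace

namespace Run7.h272.ZD

theorem exists_basis_seq (α : Type) [TopologicalSpace α] [SecondCountableTopology α] [Nonempty α] :
    ∃ O : ℕ → Set α, IsTopologicalBasis (range O) := by
  obtain ⟨O, hO⟩ := (countable_countableBasis α).exists_eq_range
    (by
      by_contra hne
      rw [not_nonempty_iff_eq_empty] at hne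
      have hb := isBasis_countableBasis α
      rw [hne] at hb
      obtain ⟨q⟩ := (inferInstance : Nonempty α)
      obtain ⟨_, h, _⟩ := hb.exists_subset_of_mem_open (mem_univ q) isOpen_univ
      exact h)
  exact ⟨O, hO ▸ isBasis_countableBasis α⟩

theorem exists_code {α : Type} [TopologicalSpace α] {O : ℕ → Set α}
    (hO : IsTopologicalBasis (range O)) {E : Set α} (hE : IsClosed E) :
    ∃ u : Set ℕ, E = (⋃ k ∈ u, O k)ᶜ := by
  refine ⟨{k | Disjoint (O k) E}, ?_⟩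
  ext x
  simp only [mem_compl_iff, mem_iUnion, not_exists, mem_ofPred_eq]
  constructor
  · intro hx k hk hxk
    exact Set.disjoint_left.1 hk hxk hx
  · intro hx
    by_contra hcon
    obtain ⟨_, ⟨k, rfl⟩, h5, h6⟩ := hO.exists_subset_of_mem_open
      (show x ∈ Eᶜ from hcon) hE.isOpen_compl
    exact hx k (Set.disjoint_left.2 fun p hp hpE => h6 hp hpE) h5

theorem isClosed_code {α : Type} [TopologicalSpace α] {O : ℕ → Set α}
    (hO : IsTopologicalBasis (range O)) (u : Set ℕ) : IsClosed (⋃ k ∈ u, O k)ᶜ :=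
  (isOpen_biUnion fun k _ => hO.isOpen (mem_range_self k)).isClosed_compl

theorem exists_data (Q : Type) [MetricSpace Q] [CompactSpace Q] [Nonempty Q] :
    ∃ S : Sys Q,
      (∀ E : Set (C × Q), IsClosed E → (∀ x, ∃ q, (x, q) ∈ E) →
        ¬ {x | (x, S.f x) ∈ E}.Countable) ∧
      (∀ (A : ℕ → ℕ → C × C) (E : Set (C × Q)), IsClosed E → ¬ {x | (x, S.f x) ∈ E}.Countable →
        ∃ x, (x, S.f x) ∈ E ∧ Handled S A x x) ∧
      (∀ (A : ℕ → ℕ → C × C) (E : Set (C × C)), IsClosed E → ¬ Small E →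
        ∃ p ∈ E, Handled S A p.1 p.2) := by
  classical
  obtain ⟨h, f, hloc, hlim, hbig⟩ := exists_limit Q
  obtain ⟨ι⟩ : Nonempty (C ↪ W) := by
    rw [← Cardinal.le_def, mk_W, mk_C]
  let r : C → C → Prop := fun s t => ι s < ι t
  have hr : WellFounded r := InvImage.wf ι wellFounded_lt
  obtain ⟨O, hO⟩ := exists_basis_seq (C × Q)
  obtain ⟨O', hO'⟩ := exists_basis_seq (C × C)
  -- measurability
  have hf : ∀ E : Set (C × Q), IsClosed E → MeasurableSet {x | (x, f x) ∈ E} := by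
    intro E hE
    letI : MeasurableSpace Q := borel Q
    haveI : BorelSpace Q := ⟨rfl⟩
    have hm : Measurable f := by
      refine measurable_of_tendsto_metrizable (f := h) (fun n => ?_) (tendsto_pi_nhds.2 hlim)
      refine Continuous.measurable ?_
      rw [continuous_iff_continuousAt]
      intro x
      refine (tendsto_const_nhds (x := h n x)).congr' ?_
      filter_upwards [(isOpen_cylinder _ x n).mem_nhds (self_mem_cylinder x n)] with y hy
      exact (hloc n x y hy).symm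
    exact (measurable_id.prodMk hm) hE.measurableSet
  -- the tasks
  let T : Type := {t : (ℕ → ℕ → C × C) × Set ℕ × Bool //
    (t.2.2 = false ∧ ¬ {x | (x, f x) ∈ (⋃ k ∈ t.2.1, O k)ᶜ}.Countable) ∨
    (t.2.2 = true ∧ ¬ Small (⋃ k ∈ t.2.1, O' k)ᶜ)}
  have hT : #T ≤ continuum := by
    refine (mk_subtype_le _).trans ?_
    simp
  have hB : ∀ t : T, ∃ b, ∀ m n, ι (t.1.1 m n).1 < b ∧ ι (t.1.1 m n).2 < b := by
    intro t
    obtain ⟨b1, hb1⟩ := exists_bound fun n => ι (t.1.1 (Nat.unpair n).1 (Nat.unpair n).2).1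
    obtain ⟨b2, hb2⟩ := exists_bound fun n => ι (t.1.1 (Nat.unpair n).1 (Nat.unpair n).2).2
    refine ⟨max b1 b2, fun m n => ⟨lt_max_of_lt_left ?_, lt_max_of_lt_right ?_⟩⟩
    · have := hb1 (Nat.pair m n)
      simpa using this
    · have := hb2 (Nat.pair m n)
      simpa using this
  choose b hb using hB
  have hsmall : ∀ b : W, #({x | ι x ≤ b} : Set C) < continuum := by
    intro b
    have h1 : #({x | ι x ≤ b} : Set C) ≤ #(Iic b) :=
      mk_le_of_injective (f := fun x : ({x | ι x ≤ b} : Set C) => (⟨ι x.1, x.2⟩ : Iic b))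
        fun x y hxy => Subtype.ext (ι.injective (by simpa using hxy))
    refine h1.trans_lt ?_
    have h2 : (Iic b : Set W) ⊆ Iio b ∪ {b} := fun x hx => by
      rcases lt_or_eq_of_le (show x ≤ b from hx) with h | h
      · exact Or.inl h
      · exact Or.inr h
    refine (mk_le_mk_of_subset h2).trans_lt ((mk_union_le _ _).trans_lt ?_)
    refine add_lt_of_lt aleph0_le_continuum (mk_Iio_W b) ?_
    rw [mk_singleton]
    exact one_lt_aleph0.trans aleph0_lt_continuum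
  have hUb : ∀ (b : W) (U : Set C), #U < continuum → #(U ∪ {x | ι x ≤ b} : Set C) < continuum :=
    fun b U hU => (mk_union_le _ _).trans_lt (add_lt_of_lt aleph0_le_continuum hU (hsmall b))
  let P : T → Set (C × C) := fun t => {p |
    ((t.1.2.2 = false ∧ p.1 = p.2 ∧ (p.1, f p.1) ∈ (⋃ k ∈ t.1.2.1, O k)ᶜ) ∨
      (t.1.2.2 = true ∧ p ∈ (⋃ k ∈ t.1.2.1, O' k)ᶜ)) ∧ b t < ι p.1 ∧ b t < ι p.2}
  obtain ⟨g, hg1, hg2⟩ := exists_selection hT P (by
    rintro ⟨t, ht⟩ U hU
    have hU' := hUb (b ⟨t, ht⟩) U hU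
    rcases ht with ht' | ht'
    · obtain ⟨x, hx1, hx2⟩ := exists_avoid_meas (hf _ (isClosed_code hO _)) ht'.2 _ hU'
      simp only [mem_union, not_or, mem_ofPred_eq, not_le] at hx2
      exact ⟨(x, x), ⟨Or.inl ⟨ht'.1, rfl, hx1⟩, hx2.2, hx2.2⟩, hx2.1, hx2.1⟩
    · obtain ⟨p, hp, hp1, hp2⟩ := exists_avoid (isClosed_code hO' _) ht'.2 _ hU'
      simp only [mem_union, not_or, mem_ofPred_eq, not_le] at hp1 hp2
      exact ⟨p, ⟨Or.inr ⟨ht'.1, hp⟩, hp1.2, hp2.2⟩, hp1.1, hp2.1⟩)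
  obtain ⟨S, rfl, rfl, hS⟩ := exists_sys hloc hlim r hr T (fun t => t.1.1) g
    (fun t m n => ⟨(hb t m n).1.trans (hg1 t).2.1, (hb t m n).2.trans (hg1 t).2.1,
      (hb t m n).1.trans (hg1 t).2.2, (hb t m n).2.trans (hg1 t).2.2⟩) hg2
  refine ⟨S, hbig, fun A E hE hEc => ?_, fun A E hE hEc => ?_⟩
  · obtain ⟨u, rfl⟩ := exists_code hO hE
    have h1 := hg1 ⟨(A, u, false), Or.inl ⟨rfl, hEc⟩⟩
    have h2 := hS ⟨(A, u, false), Or.inl ⟨rfl, hEc⟩⟩
    rcases h1.1 with ⟨-, h3, h4⟩ | ⟨h3, -⟩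
    · refine ⟨_, h4, ?_⟩
      rw [← h3] at h2
      exact h2
    · exact absurd h3 (by simp)
  · obtain ⟨u, rfl⟩ := exists_code hO' hE
    have h1 := hg1 ⟨(A, u, true), Or.inr ⟨rfl, hEc⟩⟩
    have h2 := hS ⟨(A, u, true), Or.inr ⟨rfl, hEc⟩⟩
    rcases h1.1 with ⟨h3, -⟩ | ⟨-, h3⟩
    · exact absurd h3 (by simp)
    · exact ⟨_, h3, h2⟩

end Run7.h272.ZD
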