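import Mathlib
import Pool.Agent.Run7.h272.ZD.Exist

/-!
# Continuity, countable covers
-/

set_option autoImplicit false

open Set Filter Topology PiNat TopologicalSpace

namespace Run7.h272.ZD

variable {Q : Type} [MetricSpace Q]

open Classical in
/-- the function on the square -/
noncomputable def Fm (S : Sys Q) (c : Q) (i j : Bool) (x y : C) : Q :=
  if i = j then c else S.F x y

theorem F0_eq (S : Sys Q) (x y : C) : F0 S.h S.f x y = S.F x y := rfl

theorem Fm_ne (S : Sys Q) (c : Q) {i j : Bool} (h : i ≠ j) (x y : C) :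
    Fm S c i j x y = S.F x y := if_neg h

theorem Fm_eq (S : Sys Q) (c : Q) (i : Bool) (x y : C) : Fm S c i i x y = c := if_pos rfl

theorem exists_V_near (S : Sys Q) (x : C) {e : ℝ} (he : 0 < e) : ∃ k, ∀ z w,
    S.V false x k z → S.V true x k w → dist (S.F z w) (S.f x) < e := by
  have h1 : ∀ᶠ l in atTop, dist (S.h l x) (S.f x) < e / 2 :=
    (S.h_lim x).eventually (Metric.ball_mem_nhds _ (by positivity))
  obtain ⟨k0, hk0⟩ := eventually_atTop.1 h1
  obtain ⟨k1, hk1⟩ := exists_pow_lt_of_lt_one (show (0 : ℝ) < e / 4 by positivity)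
    (show (1 / 2 : ℝ) < 1 by norm_num)
  refine ⟨max k0 k1, fun z w hz hw => ?_⟩
  have h2 : (1 / 2 : ℝ) ^ (max k0 k1) ≤ (1 / 2) ^ k1 :=
    pow_le_pow_of_le_one (by norm_num) (by norm_num) (le_max_right _ _)
  have := S.F_near x (max k0 k1) (e / 2) z w (fun l hl => (hk0 l ((le_max_left _ _).trans hl)).le)
    (by linarith) hz hw
  linarith

theorem continuous_Fm (S : Sys Q) (c : Q) :
    Continuous (fun p : XX S × XX S => Fm S c p.1.1 p.2.1 p.1.2 p.2.2) := by
  rw [Metric.continuous_iff']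
  rintro ⟨⟨i, x⟩, ⟨j, y⟩⟩ e he
  -- it is enough to find a basic neighbourhood
  have key : (∃ k l, ∀ z w, S.V i x k z → S.V j y l w →
      dist (Fm S c i j z w) (Fm S c i j x y) < e) →
      ∀ᶠ p : XX S × XX S in 𝓝 ((⟨i, x⟩, ⟨j, y⟩) : XX S × XX S),
        dist (Fm S c p.1.1 p.2.1 p.1.2 p.2.2) (Fm S c i j x y) < e := by
    rintro ⟨k, l, h⟩
    have h1 : N S (⟨i, x⟩ : XX S) k ×ˢ N S (⟨j, y⟩ : XX S) l ∈
        𝓝 ((⟨i, x⟩, ⟨j, y⟩) : XX S × XX S) :=
      prod_mem_nhds ((isOpen_N _ _).mem_nhds (mem_N _ _)) ((isOpen_N _ _).mem_nhds (mem_N _ _))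
    filter_upwards [h1]
    rintro ⟨⟨i', z⟩, ⟨j', w⟩⟩ ⟨⟨h2, h3⟩, ⟨h4, h5⟩⟩
    simp only at h2 h3 h4 h5
    subst h2 h4
    exact h z w h3 h5
  apply key
  by_cases hij : i = j
  · subst hij
    refine ⟨0, 0, fun z w _ _ => ?_⟩
    rw [Fm_eq, Fm_eq, dist_self]
    exact he
  · by_cases hxy : x = y
    · subst hxy
      obtain ⟨k, hk⟩ := exists_V_near S x he
      refine ⟨k, k, fun z w hz hw => ?_⟩
      rw [Fm_ne _ _ hij, Fm_ne _ _ hij, S.F_self]
      cases i with
      | false =>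
        have : j = true := by cases j <;> simp_all
        subst this
        exact hk z w hz hw
      | true =>
        have : j = false := by cases j <;> simp_all
        subst this
        rw [S.F_comm]
        exact hk w z hw hz
    · refine ⟨firstDiff x y + 1, firstDiff x y + 1, fun z w hz hw => ?_⟩
      rw [Fm_ne _ _ hij, Fm_ne _ _ hij,
        (S.F_loc hxy (Nat.lt_succ_self _) (Nat.lt_succ_self _) hz.cyl hw.cyl).2, dist_self]
      exact he

/-- the target of the map `Ψ` -/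
abbrev YY (Q : Type) : Type := (Bool × C) × (Bool × C) × Q

/-- the map of the square into a separable metrizable space -/
noncomputable def Psi (S : Sys Q) (c : Q) (i j : Bool) (x y : C) : YY Q :=
  ((i, x), (j, y), Fm S c i j x y)

theorem continuous_Psi (S : Sys Q) (c : Q) :
    Continuous (fun p : XX S × XX S => Psi S c p.1.1 p.2.1 p.1.2 p.2.2) := by
  have h1 : Continuous fun p : XX S => ((p.1, p.2) : Bool × C) :=
    continuous_fst_XX.prodMk continuous_snd_XX
  exact (h1.comp continuous_fst).prodMk ((h1.comp continuous_snd).prodMk (continuous_Fm S c))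

theorem exists_dense_seq' {α Y : Type} [TopologicalSpace Y] [SecondCountableTopology Y] (μ : α → Y)
    {A : Set α} (hA : A.Nonempty) :
    ∃ a : ℕ → α, (∀ k, a k ∈ A) ∧ closure (μ '' A) ⊆ closure (range fun k => μ (a k)) := by
  haveI : Nonempty (μ '' A) := (hA.image μ).to_subtype
  choose a ha1 ha2 using fun k => (denseSeq (μ '' A) k).2
  refine ⟨a, ha1, ?_⟩
  have h1 : (range fun k => μ (a k)) = Subtype.val '' (range (denseSeq (μ '' A))) := by
    rw [← range_comp]
    congr 1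
    funext k
    exact ha2 k
  rw [h1]
  have h2 := Subtype.dense_iff.1 (denseRange_denseSeq (μ '' A))
  exact closure_minimal h2 isClosed_closure

theorem exists_dense_seq_cyl {A : Set C} (hA : A.Nonempty) :
    ∃ a : ℕ → C, (∀ k, a k ∈ A) ∧ ∀ x ∈ closure A, ∀ M, ∃ k, a k ∈ cylinder x M := by
  obtain ⟨a, h1, h2⟩ := exists_dense_seq' (id : C → C) hA
  refine ⟨a, h1, fun x hx M => ?_⟩
  rw [image_id] at h2
  obtain ⟨y, ⟨k, rfl⟩, h3⟩ := mem_closure_iff_cylinder.1 (h2 hx) M
  exact ⟨k, h3⟩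

/-- the first property of the data -/
def D1 (S : Sys Q) : Prop := ∀ (A : ℕ → ℕ → C × C) (E : Set (C × Q)), IsClosed E →
  ¬ {x | (x, S.f x) ∈ E}.Countable → ∃ x, (x, S.f x) ∈ E ∧ Handled S A x x

/-- the second property of the data -/
def D2 (S : Sys Q) : Prop := ∀ (A : ℕ → ℕ → C × C) (E : Set (C × C)), IsClosed E →
  ¬ Small E → ∃ p ∈ E, Handled S A p.1 p.2

theorem refine_cover {S : Sys Q} (hD1 : D1 S) (G : ℕ → Set (XX S)) (hG : ∀ n, IsOpen (G n))
    (hcov : ∀ p, ∃ n, p ∈ G n) : ∃ D : ℕ → Set (XX S), (∀ m, IsClopen (D m)) ∧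
      (∀ m, ∃ n, D m ⊆ G n) ∧ ∀ p, ∃ m, p ∈ D m := by
  classical
  let K : Bool → Set C := fun i => ⋂ n, closure {y | ((i, y) : XX S) ∉ G n}
  have hK : ∀ i, (K i).Countable := by
    intro i
    by_contra hcon
    have hne : ∀ n, {y | ((i, y) : XX S) ∉ G n}.Nonempty := by
      intro n
      by_contra hne
      rw [not_nonempty_iff_eq_empty] at hne
      apply hcon
      have : K i ⊆ ∅ := by
        refine (iInter_subset _ n).trans ?_
        rw [hne, closure_empty]
      exact (subset_empty_iff.1 this) ▸ countable_empty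
    choose a ha1 ha2 using fun n => exists_dense_seq_cyl (hne n)
    have hcl : IsClosed (K i) := isClosed_iInter fun n => isClosed_closure
    obtain ⟨x, hx1, hx2⟩ := hD1 (fun n k => (a n k, a n k)) (K i ×ˢ univ)
      (hcl.prod isClosed_univ) (by simpa using hcon)
    have hxK : x ∈ K i := hx1.1
    obtain ⟨n, hn⟩ := hcov (i, x)
    obtain ⟨k, hk⟩ := isOpen_XX.1 (hG n) _ hn
    obtain ⟨l, hl1, -⟩ := hx2 n i i (fun M => by
      obtain ⟨l, hl⟩ := ha2 n x (mem_iInter.1 hxK n) M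
      exact ⟨l, hl, hl, fun h => absurd rfl h⟩) k
    exact ha1 n l (hk ⟨rfl, hl1⟩)
  have hk : ∀ p : XX S, ∃ k n, N S p k ⊆ G n := by
    intro p
    obtain ⟨n, hn⟩ := hcov p
    obtain ⟨k, hk⟩ := isOpen_XX.1 (hG n) _ hn
    exact ⟨k, n, hk⟩
  choose kk hkk using hk
  haveI : ∀ i, Countable (K i) := fun i => (hK i).to_subtype
  let I : Type := (Bool × J) ⊕ (Σ i, K i)
  let D' : I → Set (XX S) := fun u => match u with
    | Sum.inl w => if ∃ n, {p : XX S | p.1 = w.1 ∧ p.2 ∈ cy w.2} ⊆ G n then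
        {p : XX S | p.1 = w.1 ∧ p.2 ∈ cy w.2} else ∅
    | Sum.inr w => N S ((w.1, (w.2 : C)) : XX S) (kk ((w.1, (w.2 : C)) : XX S))
  have hD1' : ∀ u, IsClopen (D' u) := by
    rintro (w | w)
    · simp only [D']
      split_ifs with h
      · have h1 : {p : XX S | p.1 = w.1 ∧ p.2 ∈ cy w.2} =
            (fun p : XX S => (p.1 : Bool)) ⁻¹' {w.1} ∩ (fun p : XX S => (p.2 : C)) ⁻¹' (cy w.2) := rfl
        rw [h1]
        exact ((isClopen_discrete _).preimage continuous_fst_XX).inter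
          ((isClopen_cy _).preimage continuous_snd_XX)
      · exact isClopen_empty
    · exact isClopen_N _ _
  have hG0 : ∃ n, ∅ ⊆ G n := ⟨0, empty_subset _⟩
  have hD2' : ∀ u, ∃ n, D' u ⊆ G n := by
    rintro (w | w)
    · simp only [D']
      split_ifs with h
      · exact h
      · exact hG0
    · exact hkk _
  have hD3' : ∀ p, ∃ u, p ∈ D' u := by
    rintro ⟨i, x⟩
    by_cases hx : x ∈ K i
    · exact ⟨Sum.inr ⟨i, ⟨x, hx⟩⟩, mem_N _ _⟩
    · have h1 : ∃ n, x ∉ closure {y | ((i, y) : XX S) ∉ G n} := by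
        by_contra hcon
        push Not at hcon
        exact hx (mem_iInter.2 hcon)
      obtain ⟨n, hn⟩ := h1
      rw [mem_closure_iff_cylinder] at hn
      push Not at hn
      obtain ⟨m, hm⟩ := hn
      have h2 : {p : XX S | p.1 = i ∧ p.2 ∈ cy ⟨m, fun l => x l⟩} ⊆ G n := by
        rintro ⟨i', y⟩ ⟨h3, h4⟩
        simp only at h3 h4
        subst h3
        rw [cy_res] at h4
        by_contra h5
        exact hm y h5 h4
      refine ⟨Sum.inl (i, ⟨m, fun l => x l⟩), ?_⟩
      simp only [D']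
      rw [if_pos ⟨n, h2⟩]
      refine ⟨rfl, ?_⟩
      rw [cy_res]
      exact self_mem_cylinder _ _
  obtain ⟨e, he⟩ := exists_surjective_nat I
  exact ⟨fun m => D' (e m), fun m => hD1' _, fun m => hD2' _, fun p => by
    obtain ⟨u, hu⟩ := hD3' p
    obtain ⟨m, rfl⟩ := he u
    exact ⟨m, hu⟩⟩

end Run7.h272.ZD
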