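import Mathlib
import Pool.Agent.H51.LebN

/-!
# The faces of the Hilbert cube form an essential family
-/

set_option autoImplicit false

open Set Filter Topology

namespace Run7.h272.ZD

/-- finitely many coordinates -/
theorem cube_fin {F G : ℕ → Set (ℕ → unitInterval)} (hF : ∀ i, IsClosed (F i))
    (hG : ∀ i, IsClosed (G i)) (hFG : ∀ i, F i ∪ G i = univ) (h1 : ∀ i, ∀ x ∈ F i, x i ≠ 1)
    (h0 : ∀ i, ∀ x ∈ G i, x i ≠ 0) (n : ℕ) : ∃ x, ∀ i < n, x ∈ F i ∩ G i := by
  classical
  letI : MetricSpace (ℕ → unitInterval) := TopologicalSpace.metrizableSpaceMetric _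
  have hFne : ∀ i, (F i).Nonempty := by
    intro i
    have : (fun _ => 0 : ℕ → unitInterval) ∈ F i ∪ G i := by rw [hFG]; trivial
    rcases this with h | h
    · exact ⟨_, h⟩
    · exact absurd rfl (h0 i _ h)
  have hGne : ∀ i, (G i).Nonempty := by
    intro i
    have : (fun _ => 1 : ℕ → unitInterval) ∈ F i ∪ G i := by rw [hFG]; trivial
    rcases this with h | h
    · exact absurd rfl (h1 i _ h)
    · exact ⟨_, h⟩
  let e : (Fin n → ℝ) → (ℕ → unitInterval) := fun x i =>
    if h : i < n then projIcc (0:ℝ) 1 zero_le_one (x ⟨i, h⟩) else 0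
  have he : Continuous e := by
    refine continuous_pi fun i => ?_
    by_cases h : i < n
    · simp only [e, h, dif_pos]
      exact continuous_projIcc.comp (continuous_apply _)
    · simp only [e, h, dif_neg, not_false_iff]
      exact continuous_const
  obtain ⟨x, hx, hx0⟩ := Pool.Agent.H51.LebN.miranda n 1 one_pos
    (fun x i => Metric.infDist (e x) (F i) - Metric.infDist (e x) (G i))
    (continuous_pi fun i => ((Metric.continuous_infDist_pt _).comp he).sub
      ((Metric.continuous_infDist_pt _).comp he))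
    (by
      intro x i hxi
      have h2 : e x i = 0 := by
        simp only [e, i.2, dif_pos, Fin.eta, hxi]
        exact projIcc_of_le_left _ le_rfl
      have h3 : e x ∈ F i := by
        have : e x ∈ F i ∪ G i := by rw [hFG]; trivial
        rcases this with h | h
        · exact h
        · exact absurd h2 (h0 i _ h)
      have h4 : Metric.infDist (e x) (F i) = 0 := Metric.infDist_zero_of_mem h3
      have h5 : 0 ≤ Metric.infDist (e x) (G i) := Metric.infDist_nonneg
      linarith)
    (by
      intro x i hxi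
      have h2 : e x i = 1 := by
        simp only [e, i.2, dif_pos, Fin.eta, hxi]
        exact projIcc_of_right_le _ le_rfl
      have h3 : e x ∈ G i := by
        have : e x ∈ F i ∪ G i := by rw [hFG]; trivial
        rcases this with h | h
        · exact absurd h2 (h1 i _ h)
        · exact h
      have h4 : Metric.infDist (e x) (G i) = 0 := Metric.infDist_zero_of_mem h3
      have h5 : 0 ≤ Metric.infDist (e x) (F i) := Metric.infDist_nonneg
      linarith)
  refine ⟨e x, fun i hi => ?_⟩
  have h2 := congrFun hx0 ⟨i, hi⟩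
  simp only [Pi.zero_apply] at h2
  have h3 : e x ∈ F i ∪ G i := by rw [hFG]; trivial
  rcases h3 with h | h
  · have h4 : Metric.infDist (e x) (F i) = 0 := Metric.infDist_zero_of_mem h
    have h5 : Metric.infDist (e x) (G i) = 0 := by linarith
    exact ⟨h, ((hG i).mem_iff_infDist_zero (hGne i)).2 h5⟩
  · have h4 : Metric.infDist (e x) (G i) = 0 := Metric.infDist_zero_of_mem h
    have h5 : Metric.infDist (e x) (F i) = 0 := by linarith
    exact ⟨((hF i).mem_iff_infDist_zero (hFne i)).2 h5, h⟩

/-- The faces of the Hilbert cube form an essential family. -/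
theorem cube {F G : ℕ → Set (ℕ → unitInterval)} (hF : ∀ i, IsClosed (F i))
    (hG : ∀ i, IsClosed (G i)) (hFG : ∀ i, F i ∪ G i = univ) (h1 : ∀ i, ∀ x ∈ F i, x i ≠ 1)
    (h0 : ∀ i, ∀ x ∈ G i, x i ≠ 0) : ∃ x, ∀ i, x ∈ F i ∩ G i := by
  have hcl : ∀ n, IsClosed {x | ∀ i < n, x ∈ F i ∩ G i} := by
    intro n
    have : {x | ∀ i < n, x ∈ F i ∩ G i} = ⋂ i, ⋂ (_ : i < n), (F i ∩ G i) := by
      ext x; simp
    rw [this]
    exact isClosed_iInter fun i => isClosed_iInter fun _ => (hF i).inter (hG i)
  have := IsCompact.nonempty_iInter_of_sequence_nonempty_isCompact_isClosed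
    (fun n : ℕ => {x : ℕ → unitInterval | ∀ i < n, x ∈ F i ∩ G i})
    (fun n x hx i hi => hx i (by omega))
    (fun n => cube_fin hF hG hFG h1 h0 n) ((hcl 0).isCompact) hcl
  obtain ⟨x, hx⟩ := this
  rw [mem_iInter] at hx
  exact ⟨x, fun i => hx (i + 1) i (Nat.lt_succ_self i)⟩

end Run7.h272.ZD
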