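import Mathlib
import Pool.Agent.Run7.h272.ZD.Cont

/-!
# Normality of the square
-/

set_option autoImplicit false

open Set Filter Topology PiNat TopologicalSpace

namespace Run7.h272.ZD

section Good

variable {Y Z : Type} [TopologicalSpace Y] [TopologicalSpace Z]

/-- covered by countably many open sets whose closures miss one of two sets -/
def Good (A B s : Set Y) : Prop :=
  ∃ 𝒰 : Set (Set Y), 𝒰.Countable ∧
    (∀ U ∈ 𝒰, IsOpen U ∧ (Disjoint (closure U) A ∨ Disjoint (closure U) B)) ∧ s ⊆ ⋃₀ 𝒰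

theorem Good.mono {A B s A' B' s' : Set Y} (h : Good A B s) (hA : A' ⊆ A) (hB : B' ⊆ B)
    (hs : s' ⊆ s) : Good A' B' s' := by
  obtain ⟨𝒰, h1, h2, h3⟩ := h
  exact ⟨𝒰, h1, fun U hU => ⟨(h2 U hU).1, (h2 U hU).2.imp (fun h => h.mono_right hA)
    fun h => h.mono_right hB⟩, hs.trans h3⟩

theorem Good.symm {A B s : Set Y} (h : Good A B s) : Good B A s := by
  obtain ⟨𝒰, h1, h2, h3⟩ := h
  exact ⟨𝒰, h1, fun U hU => ⟨(h2 U hU).1, (h2 U hU).2.symm⟩, h3⟩

theorem Good.iUnion {A B : Set Y} {ι : Type} [Countable ι] {s : ι → Set Y}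
    (h : ∀ i, Good A B (s i)) : Good A B (⋃ i, s i) := by
  choose 𝒰 h1 h2 h3 using h
  refine ⟨⋃ i, 𝒰 i, countable_iUnion h1, fun U hU => ?_, iUnion_subset fun i => ?_⟩
  · obtain ⟨i, hi⟩ := mem_iUnion.1 hU
    exact h2 i U hi
  · exact (h3 i).trans (sUnion_subset_sUnion (subset_iUnion _ i))

theorem Good.union {A B s t : Set Y} (hs : Good A B s) (ht : Good A B t) : Good A B (s ∪ t) := by
  rw [union_eq_iUnion]
  exact Good.iUnion fun b => by cases b <;> simpa

theorem Good.preimage {A B s : Set Z} {f : Y → Z} (hf : Continuous f) (h : Good A B s) :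
    Good (f ⁻¹' A) (f ⁻¹' B) (f ⁻¹' s) := by
  obtain ⟨𝒰, h1, h2, h3⟩ := h
  refine ⟨(fun U => f ⁻¹' U) '' 𝒰, h1.image _, ?_, ?_⟩
  · rintro _ ⟨U, hU, rfl⟩
    refine ⟨(h2 U hU).1.preimage hf, (h2 U hU).2.imp (fun h => ?_) fun h => ?_⟩
    · exact (h.preimage f).mono_left (hf.closure_preimage_subset U)
    · exact (h.preimage f).mono_left (hf.closure_preimage_subset U)
  · intro y hy
    obtain ⟨U, hU, hyU⟩ := h3 hy
    exact ⟨_, mem_image_of_mem _ hU, hyU⟩

theorem Good.compl [RegularSpace Y] [SecondCountableTopology Y] {A : Set Y} (hA : IsClosed A)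
    (B : Set Y) : Good A B Aᶜ := by
  refine ⟨{U ∈ countableBasis Y | Disjoint (closure U) A},
    (countable_countableBasis Y).mono (sep_subset _ _), ?_, ?_⟩
  · rintro U ⟨hU, h⟩
    exact ⟨(isBasis_countableBasis Y).isOpen hU, Or.inl h⟩
  · intro y hy
    obtain ⟨U, hU, hyU, hUA⟩ := (isBasis_countableBasis Y).exists_closure_subset
      (hA.isOpen_compl.mem_nhds hy)
    exact ⟨U, ⟨hU, Set.disjoint_left.2 fun z hz hzA => hUA hz hzA⟩, hyU⟩

theorem Good.separatingCover {A B : Set Y} (h : Good A B univ) : HasSeparatingCover A B := by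
  obtain ⟨𝒰, h1, h2, h3⟩ := h
  obtain ⟨u, hu⟩ := ((h1.mono (sep_subset 𝒰 fun U => Disjoint (closure U) B)).insert
    (∅ : Set Y)).exists_eq_range (insert_nonempty _ _)
  refine ⟨u, fun y hy => ?_, fun n => ?_⟩
  · obtain ⟨U, hU, hyU⟩ := h3 (mem_univ y)
    have h4 : Disjoint (closure U) B := by
      rcases (h2 U hU).2 with h5 | h5
      · exact absurd hy (Set.disjoint_left.1 h5 (subset_closure hyU))
      · exact h5
    have h5 : U ∈ range u := hu ▸ mem_insert_of_mem _ ⟨hU, h4⟩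
    obtain ⟨n, rfl⟩ := h5
    exact mem_iUnion.2 ⟨n, hyU⟩
  · have h5 : u n ∈ insert (∅ : Set Y) {U ∈ 𝒰 | Disjoint (closure U) B} := hu ▸ mem_range_self n
    rcases h5 with h5 | h5
    · rw [h5]
      exact ⟨isOpen_empty, by simp⟩
    · exact ⟨(h2 _ h5.1).1, h5.2⟩

theorem normal_of_good (h : ∀ A B : Set Y, IsClosed A → IsClosed B → Disjoint A B →
    Good A B univ) : NormalSpace Y := by
  refine ⟨fun A B hA hB hAB => ?_⟩
  exact hasSeparatingCovers_iff_separatedNhds.1
    ⟨(h A B hA hB hAB).separatingCover, (h A B hA hB hAB).symm.separatingCover⟩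

end Good

variable {Q : Type} [MetricSpace Q]

/-- `Psi` on the square -/
noncomputable def PsiM (S : Sys Q) (c : Q) (p : XX S × XX S) : YY Q :=
  Psi S c p.1.1 p.2.1 p.1.2 p.2.2

theorem line_good {S : Sys Q} (hD1 : D1 S) {A B : Set (XX S × XX S)} (hA : IsClosed A)
    (hB : IsClosed B) (hAB : Disjoint A B) (p : XX S) : Good A B ({p} ×ˢ univ) := by
  let GA : Set (XX S × XX S) → ℕ → Set (XX S) := fun A k =>
    ⋃₀ {U | IsOpen U ∧ Disjoint (N S p k ×ˢ U) A}
  have hGA : ∀ A k, IsOpen (GA A k) := fun A k => isOpen_sUnion fun U hU => hU.1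
  have hGA2 : ∀ (A : Set (XX S × XX S)) k, Disjoint (N S p k ×ˢ GA A k) A := by
    intro A k
    rw [Set.disjoint_left]
    rintro ⟨a, b⟩ ⟨h1, U, hU, hbU⟩ h2
    exact Set.disjoint_left.1 hU.2 ⟨h1, hbU⟩ h2
  have hGA3 : ∀ A : Set (XX S × XX S), IsClosed A → ∀ q, (p, q) ∉ A → ∃ k, q ∈ GA A k := by
    intro A hA q hq
    obtain ⟨U, hU, V, hV, hUV⟩ := mem_nhds_prod_iff.1 (hA.isOpen_compl.mem_nhds hq)
    obtain ⟨k, -, hk⟩ := (nhds_basis_N p).mem_iff.1 hU
    obtain ⟨V', hV', hV'o, hqV'⟩ := mem_nhds_iff.1 hV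
    refine ⟨k, V', ⟨hV'o, ?_⟩, hqV'⟩
    rw [Set.disjoint_left]
    rintro ⟨a, b⟩ ⟨h1, h2⟩ h3
    exact hUV ⟨hk h1, hV' h2⟩ h3
  obtain ⟨D, hD, hDG, hDc⟩ := refine_cover hD1
    (fun n => if n % 2 = 0 then GA A (n / 2) else GA B (n / 2))
    (fun n => by split_ifs <;> exact hGA _ _) (fun q => by
      by_cases hq : (p, q) ∈ A
      · obtain ⟨k, hk⟩ := hGA3 B hB q (Set.disjoint_left.1 hAB hq)
        refine ⟨2 * k + 1, ?_⟩
        rw [if_neg (by omega), show (2 * k + 1) / 2 = k by omega]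
        exact hk
      · obtain ⟨k, hk⟩ := hGA3 A hA q hq
        refine ⟨2 * k, ?_⟩
        rw [if_pos (by omega), show (2 * k) / 2 = k by omega]
        exact hk)
  choose n hn using hDG
  refine ⟨range fun m => N S p (n m / 2) ×ˢ D m, countable_range _, ?_, ?_⟩
  · rintro _ ⟨m, rfl⟩
    have h1 : IsClopen (N S p (n m / 2) ×ˢ D m) := (isClopen_N _ _).prod (hD m)
    refine ⟨h1.2, ?_⟩
    rw [h1.1.closure_eq]
    have h2 := hn m
    by_cases h3 : n m % 2 = 0
    · rw [if_pos h3] at h2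
      exact Or.inl ((hGA2 A (n m / 2)).mono_left (prod_mono_right h2))
    · rw [if_neg h3] at h2
      exact Or.inr ((hGA2 B (n m / 2)).mono_left (prod_mono_right h2))
  · rintro ⟨a, b⟩ ⟨h1, -⟩
    simp only [mem_singleton_iff] at h1
    subst h1
    obtain ⟨m, hm⟩ := hDc b
    exact ⟨_, mem_range_self m, mem_N _ _, hm⟩

theorem act_of_closure (S : Sys Q) (c : Q) (i j : Bool) (x y : C) (𝒜 : ℕ → ℕ → C × C) (m : ℕ)
    (h : Psi S c i j x y ∈ closure (range fun k => Psi S c i j (𝒜 m k).1 (𝒜 m k).2)) (M : ℕ) :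
    ∃ n, G S.h S.f x y 𝒜 m i j M n := by
  have hU : IsOpen {w : YY Q | w.1.2 ∈ cylinder x M ∧ w.2.1.2 ∈ cylinder y M ∧
      dist w.2.2 (Fm S c i j x y) < (1 / 2) ^ M} := by
    refine IsOpen.inter ?_ (IsOpen.inter ?_ ?_)
    · exact (isOpen_cylinder _ x M).preimage (continuous_snd.comp continuous_fst)
    · exact (isOpen_cylinder _ y M).preimage
        (continuous_snd.comp (continuous_fst.comp continuous_snd))
    · exact isOpen_lt ((continuous_snd.comp continuous_snd).dist continuous_const) continuous_const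
  obtain ⟨w, ⟨h1, h2, h3⟩, ⟨n, rfl⟩⟩ := mem_closure_iff.1 h _ hU
    ⟨self_mem_cylinder _ _, self_mem_cylinder _ _, by
      simp only [Psi, dist_self]; positivity⟩
  refine ⟨n, h1, h2, fun hij hxy => ?_⟩
  subst hxy
  simp only [Psi] at h3
  rw [Fm_ne _ _ hij, Fm_ne _ _ hij, S.F_self] at h3
  exact h3

theorem exists_key [SecondCountableTopology Q] (S : Sys Q) (c : Q) {A B : Set (XX S × XX S)}
    (hA : IsClosed A) (hB : IsClosed B) (hAB : Disjoint A B) (i j : Bool) :
    ∃ 𝒜 : ℕ → ℕ → C × C, ∀ x y, Handled S 𝒜 x y →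
      ¬ (Psi S c i j x y ∈ closure (PsiM S c '' A) ∩ closure (PsiM S c '' B)) := by
  -- the sections
  let sec : Set (XX S × XX S) → Set (C × C) := fun A =>
    {z | (((i, z.1) : XX S), ((j, z.2) : XX S)) ∈ A}
  have hsec : ∀ A x y, Psi S c i j x y ∈ closure (PsiM S c '' A) →
      Psi S c i j x y ∈ closure ((fun z : C × C => Psi S c i j z.1 z.2) '' sec A) := by
    intro A x y h
    rw [mem_closure_iff] at h ⊢
    intro U hU hx
    have hV : IsOpen {w : YY Q | w.1.1 = i ∧ w.2.1.1 = j} := by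
      refine IsOpen.inter ?_ ?_
      · exact (isOpen_discrete {i}).preimage (continuous_fst.comp continuous_fst)
      · exact (isOpen_discrete {j}).preimage
          (continuous_fst.comp (continuous_fst.comp continuous_snd))
    obtain ⟨w, ⟨h1, h2, h3⟩, ⟨⟨⟨i', z⟩, ⟨j', z'⟩⟩, hp, rfl⟩⟩ := h _ (hU.inter hV) ⟨hx, rfl, rfl⟩
    simp only [PsiM, Psi] at h2 h3
    subst h2 h3
    exact ⟨_, h1, (z, z'), hp, rfl⟩
  by_cases hne : (sec A).Nonempty ∧ (sec B).Nonempty
  · obtain ⟨a, ha1, ha2⟩ := exists_dense_seq' (fun z : C × C => Psi S c i j z.1 z.2) hne.1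
    obtain ⟨b, hb1, hb2⟩ := exists_dense_seq' (fun z : C × C => Psi S c i j z.1 z.2) hne.2
    refine ⟨fun m => if m = 0 then a else b, fun x y hh hxy => ?_⟩
    have hcon : ∀ (m : ℕ) (a : ℕ → C × C) (A : Set (XX S × XX S)), IsClosed A →
        ((fun m => if m = 0 then a else b) = (fun m => if m = 0 then a else b)) →
        (∀ k, ∃ n, S.V i x k (a n).1 ∧ S.V j y k (a n).2) → (∀ k, a k ∈ sec A) →
        (((i, x) : XX S), ((j, y) : XX S)) ∈ A := by
      intro m a A hA _ h1 h2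
      by_contra h3
      obtain ⟨U, hU, V, hV, hUV⟩ := mem_nhds_prod_iff.1 (hA.isOpen_compl.mem_nhds h3)
      obtain ⟨k, -, hk⟩ := (nhds_basis_N _).mem_iff.1 hU
      obtain ⟨l, -, hl⟩ := (nhds_basis_N _).mem_iff.1 hV
      obtain ⟨n, hn1, hn2⟩ := h1 (max k l)
      exact hUV (show (((i, (a n).1) : XX S), ((j, (a n).2) : XX S)) ∈ U ×ˢ V from
        ⟨hk ⟨rfl, hn1.mono (le_max_left _ _)⟩, hl ⟨rfl, hn2.mono (le_max_right _ _)⟩⟩) (h2 n)
    have h1 : (((i, x) : XX S), ((j, y) : XX S)) ∈ A := by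
      refine hcon 0 a A hA rfl ?_ ha1
      have := hh 0 i j (act_of_closure S c i j x y _ 0 (by
        simpa using ha2 (hsec A x y hxy.1)))
      simpa using this
    have h2 : (((i, x) : XX S), ((j, y) : XX S)) ∈ B := by
      refine hcon 1 b B hB rfl ?_ hb1
      have := hh 1 i j (act_of_closure S c i j x y _ 1 (by
        simpa using hb2 (hsec B x y hxy.2)))
      simpa using this
    exact Set.disjoint_left.1 hAB h1 h2
  · refine ⟨fun _ _ => (fun _ => false, fun _ => false), fun x y _ hxy => hne ⟨?_, ?_⟩⟩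
    · have := closure_nonempty_iff.1 ⟨_, hsec A x y hxy.1⟩
      exact (image_nonempty).1 this
    · have := closure_nonempty_iff.1 ⟨_, hsec B x y hxy.2⟩
      exact (image_nonempty).1 this

theorem isClopen_near (n : ℕ) : IsClopen {z : C × C | z.2 ∈ cylinder z.1 n} := by
  have h : {z : C × C | z.2 ∈ cylinder z.1 n} = ⋂ i : Fin n, {z : C × C | z.2 i = z.1 i} := by
    ext z
    simp only [mem_ofPred_eq, mem_iInter, mem_cylinder_iff]
    exact ⟨fun h i => h i i.2, fun h i hi => h ⟨i, hi⟩⟩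
  rw [h]
  refine isClopen_iInter_of_finite fun i => ?_
  have h2 : Continuous fun z : C × C => (z.2 i, z.1 i) :=
    ((continuous_apply _).comp continuous_snd).prodMk ((continuous_apply _).comp continuous_fst)
  exact (isClopen_discrete {w : Bool × Bool | w.1 = w.2}).preimage h2

theorem small_K [SecondCountableTopology Q] {S : Sys Q} (hD1 : D1 S) (hD2 : D2 S) (c : Q)
    {A B : Set (XX S × XX S)}
    (hA : IsClosed A) (hB : IsClosed B) (hAB : Disjoint A B) (i j : Bool) :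
    Small {z : C × C | Psi S c i j z.1 z.2 ∈ closure (PsiM S c '' A) ∩ closure (PsiM S c '' B)} := by
  classical
  set E := closure (PsiM S c '' A) ∩ closure (PsiM S c '' B) with hE
  have hEc : IsClosed E := isClosed_closure.inter isClosed_closure
  obtain ⟨𝒜, h𝒜⟩ := exists_key S c hA hB hAB i j
  -- the diagonal
  have h1 : {x | Psi S c i j x x ∈ E}.Countable := by
    by_contra hcon
    let Φ : C × Q → YY Q := fun p => ((i, p.1), (j, p.1), if i = j then c else p.2)
    have hΦ : Continuous Φ := by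
      refine Continuous.prodMk (by fun_prop) (Continuous.prodMk (by fun_prop) ?_)
      split_ifs
      · exact continuous_const
      · exact continuous_snd
    have hΦ2 : ∀ x, Φ (x, S.f x) = Psi S c i j x x := by
      intro x
      simp only [Φ, Psi, Fm, S.F_self]
    obtain ⟨x, hx1, hx2⟩ := hD1 𝒜 (Φ ⁻¹' E) (hEc.preimage hΦ) (by
      simp only [mem_preimage, hΦ2]
      exact hcon)
    rw [mem_preimage, hΦ2] at hx1
    exact h𝒜 x x hx2 hx1
  -- off the diagonal
  have h2 : ∀ n : ℕ, Small ({z : C × C | z.2 ∉ cylinder z.1 n} ∩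
      (fun z : C × C => Psi S c i j z.1 z.2) ⁻¹' E) := by
    intro n
    by_contra hcon
    have hcl : IsClosed ({z : C × C | z.2 ∉ cylinder z.1 n} ∩
      (fun z : C × C => Psi S c i j z.1 z.2) ⁻¹' E) := by
      refine ContinuousOn.preimage_isClosed_of_isClosed ?_ (isClopen_near n).compl.1 hEc
      rintro ⟨x, y⟩ hxy
      obtain ⟨hne, -⟩ := fd_lt_of_notMem hxy
      simp only at hne
      refine ContinuousAt.continuousWithinAt ?_
      have hc1 : Continuous fun z : C × C => (((i, z.1), (j, z.2), Fm S c i j x y) : YY Q) := by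
        fun_prop
      refine hc1.continuousAt.congr ?_
      have h3 : cylinder x (firstDiff x y + 1) ×ˢ cylinder y (firstDiff x y + 1) ∈
          𝓝 ((x, y) : C × C) := prod_mem_nhds
        ((isOpen_cylinder _ _ _).mem_nhds (self_mem_cylinder _ _))
        ((isOpen_cylinder _ _ _).mem_nhds (self_mem_cylinder _ _))
      filter_upwards [h3]
      rintro ⟨z, w⟩ ⟨hz, hw⟩
      simp only [Psi, Fm]
      rw [(S.F_loc (Ne.symm hne) (Nat.lt_succ_self _) (Nat.lt_succ_self _) hz hw).2]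
    obtain ⟨p, hp1, hp2⟩ := hD2 𝒜 _ hcl hcon
    exact h𝒜 p.1 p.2 hp2 hp1.2
  have h3 : Small {z : C × C | z.1 = z.2 ∧ Psi S c i j z.1 z.2 ∈ E} := by
    refine ⟨_, h1, ?_⟩
    rintro ⟨x, y⟩ ⟨h4, h5⟩
    simp only at h4 h5
    subst h4
    exact Or.inl h5
  refine (h3.union (Small.iUnion h2)).mono ?_
  rintro ⟨x, y⟩ hxy
  by_cases h4 : x = y
  · exact Or.inl ⟨h4, hxy⟩
  · refine Or.inr (mem_iUnion.2 ⟨firstDiff y x + 1, ?_, hxy⟩)
    intro h5
    have := ne_at_fd (Ne.symm h4)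
    exact this (h5 _ (Nat.lt_succ_self _))

theorem normal_sq [SecondCountableTopology Q] {S : Sys Q} (hD1 : D1 S) (hD2 : D2 S) (c : Q) :
    NormalSpace (XX S × XX S) := by
  refine normal_of_good fun A B hA hB hAB => ?_
  choose H hH1 hH2 using fun ij : Bool × Bool => small_K hD1 hD2 c hA hB hAB ij.1 ij.2
  have hΨ : Continuous (PsiM S c) := continuous_Psi S c
  have g1 : Good A B (PsiM S c ⁻¹' (closure (PsiM S c '' A))ᶜ) :=
    ((Good.compl (isClosed_closure (s := PsiM S c '' A)) (closure (PsiM S c '' B))).preimage hΨ).mono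
      (fun z hz => subset_closure (mem_image_of_mem _ hz))
      (fun z hz => subset_closure (mem_image_of_mem _ hz)) subset_rfl
  have g2 : Good A B (PsiM S c ⁻¹' (closure (PsiM S c '' B))ᶜ) :=
    (((Good.compl (isClosed_closure (s := PsiM S c '' B)) (closure (PsiM S c '' A))).symm).preimage
      hΨ).mono
      (fun z hz => subset_closure (mem_image_of_mem _ hz))
      (fun z hz => subset_closure (mem_image_of_mem _ hz)) subset_rfl
  let H' : Set C := ⋃ ij, H ij
  have hH' : H'.Countable := countable_iUnion hH1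
  haveI : Countable H' := hH'.to_subtype
  have g3 : Good A B (⋃ u : Bool × H', ({((u.1, (u.2 : C)) : XX S)} ×ˢ univ)) :=
    Good.iUnion fun u => line_good hD1 hA hB hAB _
  have g4 : Good A B (⋃ u : Bool × H', (univ ×ˢ {((u.1, (u.2 : C)) : XX S)})) := by
    refine Good.iUnion fun u => ?_
    have h1 : Continuous (Prod.swap : XX S × XX S → XX S × XX S) := continuous_swap
    have h2 := (line_good hD1 (hA.preimage h1) (hB.preimage h1) (hAB.preimage Prod.swap)
      ((u.1, (u.2 : C)) : XX S)).preimage h1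
    refine h2.mono ?_ ?_ ?_
    · intro z hz
      simpa using hz
    · intro z hz
      simpa using hz
    · rintro ⟨a, b⟩ ⟨-, hb⟩
      exact ⟨hb, trivial⟩
  refine (g1.union (g2.union (g3.union g4))).mono subset_rfl subset_rfl ?_
  rintro ⟨⟨i, x⟩, ⟨j, y⟩⟩ -
  by_cases h1 : PsiM S c (⟨i, x⟩, ⟨j, y⟩) ∈ closure (PsiM S c '' A)
  · by_cases h2 : PsiM S c (⟨i, x⟩, ⟨j, y⟩) ∈ closure (PsiM S c '' B)
    · rcases hH2 (i, j) (x, y) ⟨h1, h2⟩ with h3 | h3
      · exact Or.inr (Or.inr (Or.inl (mem_iUnion.2 ⟨(i, ⟨x, mem_iUnion.2 ⟨_, h3⟩⟩), rfl, trivial⟩)))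
      · exact Or.inr (Or.inr (Or.inr (mem_iUnion.2 ⟨(j, ⟨y, mem_iUnion.2 ⟨_, h3⟩⟩), trivial, rfl⟩)))
    · exact Or.inr (Or.inl h2)
  · exact Or.inl h1

end Run7.h272.ZD
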