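import Mathlib
import Pool.Agent.Run7.h272.ZD.Norm

/-!
# The space is completely regular and has covering dimension zero
-/

set_option autoImplicit false

open Set Filter Topology PiNat TopologicalSpace

namespace Run7.h272.ZD

variable {Q : Type} [MetricSpace Q]

theorem t35_XX (S : Sys Q) : T35Space (XX S) := by
  classical
  have h1 : T2Space (XX S) := by
    refine T2Space.of_injective_continuous (Y := Bool × C) (f := fun p : XX S => ((p.1, p.2) : Bool × C)) ?_
      (continuous_fst_XX.prodMk continuous_snd_XX)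
    rintro ⟨i, x⟩ ⟨j, y⟩ h
    exact h
  have h2 : CompletelyRegularSpace (XX S) := by
    refine ⟨fun x K hK hx => ?_⟩
    obtain ⟨k, -, hk⟩ := (nhds_basis_N x).mem_iff.1 (hK.isOpen_compl.mem_nhds hx)
    refine ⟨(N S x k)ᶜ.indicator 1, ?_, ?_, ?_⟩
    · exact (isClopen_N x k).compl.continuous_indicator continuous_one
    · rw [indicator_of_notMem]
      exact fun h => h (mem_N x k)
    · intro y hy
      rw [indicator_of_mem]
      exact fun h => hk h hy
  exact {}

theorem dim_XX {S : Sys Q} (hD1 : D1 S) (m : ℕ) (U : Fin m → Set (XX S))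
    (hU : ∀ i, ∃ f : XX S → ℝ, Continuous f ∧ U i = {x | f x ≠ 0}) (hcov : (⋃ i, U i) = univ) :
    ∃ (k : ℕ) (V : Fin k → Set (XX S)),
        (∀ j, ∃ f : XX S → ℝ, Continuous f ∧ V j = {x | f x ≠ 0}) ∧
        (⋃ j, V j) = Set.univ ∧
        (∀ j, ∃ i, V j ⊆ U i) ∧
        ∀ x, {j : Fin k | x ∈ V j}.ncard ≤ 1 := by
  classical
  have hUo : ∀ i, IsOpen (U i) := by
    intro i
    obtain ⟨f, hf, h⟩ := hU i
    rw [h]
    exact isOpen_ne_fun hf continuous_const
  obtain ⟨D, hD, hDG, hDc⟩ := refine_cover hD1 (fun n => if h : n < m then U ⟨n, h⟩ else ∅)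
    (fun n => by
      split_ifs with h
      · exact hUo _
      · exact isOpen_empty) (fun p => by
      have hp : p ∈ ⋃ i, U i := hcov ▸ mem_univ p
      obtain ⟨i, hi⟩ := mem_iUnion.1 hp
      refine ⟨i, ?_⟩
      rw [dif_pos i.2]
      exact hi)
  choose n hn using hDG
  -- the disjoint cover
  have hex : ∀ p, ∃ k, p ∈ D k ∧ ∀ l < k, p ∉ D l := fun p =>
    ⟨Nat.find (hDc p), Nat.find_spec (hDc p), fun l hl => Nat.find_min (hDc p) hl⟩
  let D' : ℕ → Set (XX S) := fun k => {p | p ∈ D k ∧ ∀ l < k, p ∉ D l}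
  have hD' : ∀ k, IsOpen (D' k) := by
    intro k
    have : D' k = D k ∩ ⋂ l : Fin k, (D l)ᶜ := by
      ext p
      simp only [D', mem_ofPred_eq, mem_inter_iff, mem_iInter, mem_compl_iff]
      exact ⟨fun h => ⟨h.1, fun l => h.2 l l.2⟩, fun h => ⟨h.1, fun l hl => h.2 ⟨l, hl⟩⟩⟩
    rw [this]
    exact (hD k).2.inter (isOpen_iInter_of_finite fun l => (hD l).compl.2)
  have huniq : ∀ p k l, p ∈ D' k → p ∈ D' l → k = l := by
    intro p k l hk hl
    rcases lt_trichotomy k l with h | h | h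
    · exact absurd hk.1 (hl.2 k h)
    · exact h
    · exact absurd hl.1 (hk.2 l h)
  let V : Fin m → Set (XX S) := fun j => ⋃ k, ⋃ (_ : n k = j), D' k
  have hVc : ∀ j, IsClopen (V j) := by
    intro j
    refine ⟨?_, isOpen_iUnion fun k => isOpen_iUnion fun _ => hD' k⟩
    have : (V j)ᶜ = ⋃ k, ⋃ (_ : n k ≠ j), D' k := by
      ext p
      simp only [V, mem_compl_iff, mem_iUnion, not_exists, exists_prop, not_and]
      constructor
      · intro h
        obtain ⟨k, hk⟩ := hex p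
        exact ⟨k, fun h1 => h k h1 hk, hk⟩
      · rintro ⟨k, hk1, hk2⟩ l hl1 hl2
        have := huniq p k l hk2 hl2
        subst this
        exact hk1 hl1
    rw [← isOpen_compl_iff, this]
    exact isOpen_iUnion fun k => isOpen_iUnion fun _ => hD' k
  refine ⟨m, V, fun j => ?_, ?_, fun j => ⟨j, ?_⟩, fun p => ?_⟩
  · refine ⟨(V j).indicator 1, (hVc j).continuous_indicator continuous_one, ?_⟩
    ext p
    simp [indicator_apply]
  · refine eq_univ_of_forall fun p => ?_
    obtain ⟨k, hk⟩ := hex p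
    have h1 : n k < m := by
      by_contra h1
      have := hn k hk.1
      rw [dif_neg h1] at this
      exact this
    exact mem_iUnion.2 ⟨⟨n k, h1⟩, mem_iUnion.2 ⟨k, mem_iUnion.2 ⟨rfl, hk⟩⟩⟩
  · intro p hp
    obtain ⟨k, hk⟩ := mem_iUnion.1 hp
    obtain ⟨h1, h2⟩ := mem_iUnion.1 hk
    have h3 := hn k h2.1
    rw [dif_pos (h1 ▸ j.2)] at h3
    have h4 : (⟨n k, h1 ▸ j.2⟩ : Fin m) = j := Fin.ext h1
    rwa [h4] at h3
  · rw [Set.ncard_le_one (toFinite _)]
    rintro a ha b hb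
    obtain ⟨k, hk⟩ := mem_iUnion.1 ha
    obtain ⟨h1, h2⟩ := mem_iUnion.1 hk
    obtain ⟨l, hl⟩ := mem_iUnion.1 hb
    obtain ⟨h3, h4⟩ := mem_iUnion.1 hl
    have := huniq p k l h2 h4
    subst this
    exact Fin.ext (h1.symm.trans h3)

end Run7.h272.ZD
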