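import Mathlib
import Pool.Agent.Run7.h272.ZD.Norm
import Pool.Agent.Run7.h272.ZD.Cube

/-!
# The square is not countable-dimensional
-/

set_option autoImplicit false

open Set Filter Topology PiNat TopologicalSpace

namespace Run7.h272.ZD

/-- the covering dimension is at most `k` -/
def DimLE (Z : Type) [TopologicalSpace Z] (k : ℕ) : Prop :=
  ∀ (m : ℕ) (U : Fin m → Set Z),
          (∀ i, ∃ f : Z → ℝ, Continuous f ∧ U i = {x | f x ≠ 0}) →
          (⋃ i, U i) = Set.univ →
          ∃ (l : ℕ) (V : Fin l → Set Z),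
            (∀ j, ∃ f : Z → ℝ, Continuous f ∧ V j = {x | f x ≠ 0}) ∧
            (⋃ j, V j) = Set.univ ∧
            (∀ j, ∃ i, V j ⊆ U i) ∧
            ∀ x, {j : Fin l | x ∈ V j}.ncard ≤ k + 1

theorem partitions {Z : Type} [TopologicalSpace Z] {k : ℕ} (hZ : DimLE Z k)
    (g : Fin (k + 1) → Z → ℝ) (hg : ∀ i, Continuous (g i)) :
    ∃ F G : Fin (k + 1) → Set Z, (∀ i, IsClosed (F i)) ∧ (∀ i, IsClosed (G i)) ∧
      (∀ i, F i ∪ G i = univ) ∧ (∀ i, ∀ z ∈ F i, g i z < 2 / 3) ∧
      (∀ i, ∀ z ∈ G i, 1 / 3 < g i z) ∧ ∀ z, ∃ i, z ∉ F i ∨ z ∉ G i := by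
  classical
  let e := Fintype.equivFin (Fin (k + 1) → Bool)
  let W : Fin (k + 1) → Bool → Z → ℝ := fun i b z =>
    if b then max 0 (2 / 3 - g i z) else max 0 (g i z - 1 / 3)
  have hW : ∀ i b, Continuous (W i b) := by
    intro i b
    cases b
    · simp only [W]
      exact continuous_const.max ((hg i).sub continuous_const)
    · simp only [W, if_true]
      exact continuous_const.max (continuous_const.sub (hg i))
  obtain ⟨l, V, hV, hVc, hVU, hVn⟩ := hZ _
    (fun a => {z | ∏ i, W i (e.symm a i) z ≠ 0})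
    (fun a => ⟨fun z => ∏ i, W i (e.symm a i) z, continuous_finsetProd _ fun i _ => hW _ _, rfl⟩)
    (by
      refine eq_univ_of_forall fun z => ?_
      refine mem_iUnion.2 ⟨e fun i => decide (g i z < 2 / 3), ?_⟩
      simp only [Equiv.symm_apply_apply, mem_ofPred_eq]
      refine Finset.prod_ne_zero_iff.2 fun i _ => ?_
      by_cases h : g i z < 2 / 3
      · simp only [W, h, decide_true, if_true]
        have : 0 < max 0 (2 / 3 - g i z) := lt_max_of_lt_right (by linarith)
        exact this.ne'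
      · simp only [W, h, decide_false]
        have : 0 < max 0 (g i z - 1 / 3) := lt_max_of_lt_right (by linarith)
        exact this.ne')
  choose φ hφ hVφ using hV
  choose a ha using hVU
  have hs : ∀ z, 0 < ∑ j, |φ j z| := by
    intro z
    have hz : z ∈ ⋃ j, V j := hVc ▸ mem_univ z
    obtain ⟨j, hj⟩ := mem_iUnion.1 hz
    rw [hVφ j] at hj
    exact Finset.sum_pos' (fun j _ => abs_nonneg _) ⟨j, Finset.mem_univ _, abs_pos.2 hj⟩
  let ψ : Fin l → Z → ℝ := fun j z => |φ j z| / ∑ j, |φ j z|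
  have hψc : ∀ j, Continuous (ψ j) := fun j =>
    (hφ j).abs.div (continuous_finsetSum _ fun j _ => (hφ j).abs) fun z => (hs z).ne'
  have hψ0 : ∀ j z, 0 ≤ ψ j z := fun j z => div_nonneg (abs_nonneg _) (hs z).le
  have hψ1 : ∀ z, ∑ j, ψ j z = 1 := by
    intro z
    simp only [ψ]
    rw [← Finset.sum_div, div_self (hs z).ne']
  have hψV : ∀ j z, 0 < ψ j z → z ∈ V j := by
    intro j z h
    rw [hVφ j]
    intro h0
    simp [ψ, h0] at h
  have hψV' : ∀ j z, z ∉ V j → ψ j z = 0 := by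
    intro j z h
    by_contra h0
    exact h (hψV j z (lt_of_le_of_ne (hψ0 j z) (Ne.symm h0)))
  have hsum : ∀ z, ∑ j ∈ Finset.univ.filter (fun j => z ∈ V j), ψ j z = 1 := by
    intro z
    rw [← hψ1 z]
    refine Finset.sum_subset (Finset.subset_univ _) fun j _ hj => hψV' j z ?_
    simpa using hj
  have hcard : ∀ z, (Finset.univ.filter (fun j => z ∈ V j)).card ≤ k + 1 := by
    intro z
    refine le_trans (le_of_eq ?_) (hVn z)
    rw [← Set.ncard_coe_finset]
    congr 1
    ext j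
    simp
  have hT : ∀ j z i, z ∈ V j → e.symm (a j) i = true → g i z < 2 / 3 := by
    intro j z i hz hi
    have h1 := ha j hz
    simp only [mem_ofPred_eq] at h1
    have h2 := Finset.prod_ne_zero_iff.1 h1 i (Finset.mem_univ i)
    simp only [W, hi, if_true] at h2
    by_contra h3
    exact h2 (max_eq_left (by linarith))
  have hFl : ∀ j z i, z ∈ V j → e.symm (a j) i ≠ true → 1 / 3 < g i z := by
    intro j z i hz hi
    have h1 := ha j hz
    simp only [mem_ofPred_eq] at h1
    have h2 := Finset.prod_ne_zero_iff.1 h1 i (Finset.mem_univ i)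
    simp only [W, hi] at h2
    by_contra h3
    exact h2 (by
      simp only [Bool.false_eq_true, if_false]
      exact max_eq_left (by linarith))
  -- the thresholds
  let t : Fin (k + 1) → ℝ := fun i => 1 / ((k : ℝ) + 2 + (i : ℕ))
  have ht0 : ∀ i, 0 < t i := fun i => by simp only [t]; positivity
  have ht1 : ∀ i, t i < 1 / ((k : ℝ) + 1) := by
    intro i
    simp only [t]
    refine one_div_lt_one_div_of_lt (by positivity) ?_
    have : (0 : ℝ) ≤ (i : ℕ) := Nat.cast_nonneg _
    linarith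
  have htinj : ∀ i i', t i = t i' → i = i' := by
    intro i i' h
    simp only [t, one_div] at h
    have := inv_injective h
    have h2 : ((i : ℕ) : ℝ) = ((i' : ℕ) : ℝ) := by linarith
    exact Fin.ext (by exact_mod_cast h2)
  refine ⟨fun i => {z | ∃ j, e.symm (a j) i = true ∧ t i ≤ ψ j z},
    fun i => {z | ∀ j, e.symm (a j) i = true → ψ j z ≤ t i}, fun i => ?_, fun i => ?_, fun i => ?_,
    fun i z hz => ?_, fun i z hz => ?_, fun z => ?_⟩
  · have : {z | ∃ j, e.symm (a j) i = true ∧ t i ≤ ψ j z} =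
        ⋃ j ∈ {j | e.symm (a j) i = true}, {z | t i ≤ ψ j z} := by
      ext z
      simp
    beta_reduce
    rw [this]
    exact (toFinite _).isClosed_biUnion fun j _ => isClosed_le continuous_const (hψc j)
  · have : {z | ∀ j, e.symm (a j) i = true → ψ j z ≤ t i} =
        ⋂ j, ⋂ (_ : e.symm (a j) i = true), {z | ψ j z ≤ t i} := by
      ext z
      simp
    beta_reduce
    rw [this]
    exact isClosed_iInter fun j => isClosed_iInter fun _ => isClosed_le (hψc j) continuous_const
  · refine eq_univ_of_forall fun z => ?_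
    by_cases h : ∃ j, e.symm (a j) i = true ∧ t i ≤ ψ j z
    · exact Or.inl h
    · push Not at h
      exact Or.inr fun j hj => (h j hj).le
  · obtain ⟨j, hj1, hj2⟩ := hz
    exact hT j z i (hψV j z ((ht0 i).trans_le hj2)) hj1
  · by_contra hcon
    have h1 : ∀ j ∈ Finset.univ.filter (fun j => z ∈ V j), ψ j z ≤ t i := by
      intro j hj
      simp only [Finset.mem_filter, Finset.mem_univ, true_and] at hj
      refine hz j ?_
      by_contra h2
      exact hcon (hFl j z i hj h2)
    have h2 := Finset.sum_le_card_nsmul _ _ _ h1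
    rw [hsum, nsmul_eq_mul] at h2
    have h3 : ((Finset.univ.filter (fun j => z ∈ V j)).card : ℝ) ≤ (k : ℝ) + 1 := by
      exact_mod_cast hcard z
    have h4 := ht1 i
    rw [lt_div_iff₀ (by positivity)] at h4
    have h5 := mul_le_mul_of_nonneg_right h3 (ht0 i).le
    linarith
  · by_contra hcon
    push Not at hcon
    choose jj hj1 hj2 using fun i => (hcon i).1
    have hj3 : ∀ i, ψ (jj i) z = t i := fun i => le_antisymm ((hcon i).2 _ (hj1 i)) (hj2 i)
    have hinj : Function.Injective jj := fun i i' h => htinj i i' (by rw [← hj3, ← hj3, h])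
    have h1 : Finset.univ.image jj = Finset.univ.filter (fun j => z ∈ V j) := by
      refine Finset.eq_of_subset_of_card_le ?_ ?_
      · intro j hj
        obtain ⟨i, -, rfl⟩ := Finset.mem_image.1 hj
        simp only [Finset.mem_filter, Finset.mem_univ, true_and]
        exact hψV _ _ (by rw [hj3]; exact ht0 i)
      · rw [Finset.card_image_of_injective _ hinj, Finset.card_univ, Fintype.card_fin]
        exact hcard z
    have h2 := hsum z
    rw [← h1, Finset.sum_image (fun _ _ _ _ h => hinj h)] at h2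
    simp only [hj3] at h2
    have h3 : ∑ i, t i < ∑ _i : Fin (k + 1), 1 / ((k : ℝ) + 1) :=
      Finset.sum_lt_sum_of_nonempty ⟨0, Finset.mem_univ _⟩ fun i _ => ht1 i
    rw [h2, Finset.sum_const, Finset.card_univ, Fintype.card_fin, nsmul_eq_mul] at h3
    push_cast at h3
    rw [mul_one_div, div_self (by positivity)] at h3
    exact lt_irrefl _ h3

theorem exists_sep {Y : Type} [TopologicalSpace Y] [MetrizableSpace Y] {N M : Set Y}
    (hN : IsClosed N) (hM : IsClosed M) (hNe : N.Nonempty) (hMe : M.Nonempty) :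
    ∃ F G : Set Y, IsClosed F ∧ IsClosed G ∧ F ∪ G = univ ∧ (∀ p ∈ F, p ∈ M → p ∈ N) ∧
      ∀ p ∈ G, p ∈ N → p ∈ M := by
  letI : MetricSpace Y := TopologicalSpace.metrizableSpaceMetric Y
  refine ⟨{p | Metric.infDist p N ≤ Metric.infDist p M},
    {p | Metric.infDist p M ≤ Metric.infDist p N},
    isClosed_le (Metric.continuous_infDist_pt _) (Metric.continuous_infDist_pt _),
    isClosed_le (Metric.continuous_infDist_pt _) (Metric.continuous_infDist_pt _), ?_, ?_, ?_⟩
  · exact eq_univ_of_forall fun p =>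
      (le_total (Metric.infDist p N) (Metric.infDist p M) : _ ∨ _)
  · intro p hp hpM
    have h1 : Metric.infDist p M = 0 := Metric.infDist_zero_of_mem hpM
    have h2 : Metric.infDist p N = 0 := le_antisymm (h1 ▸ hp) Metric.infDist_nonneg
    exact (hN.mem_iff_infDist_zero hNe).2 h2
  · intro p hp hpN
    have h1 : Metric.infDist p N = 0 := Metric.infDist_zero_of_mem hpN
    have h2 : Metric.infDist p M = 0 := le_antisymm (h1 ▸ hp) Metric.infDist_nonneg
    exact (hM.mem_iff_infDist_zero hMe).2 h2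

variable {Q : Type} [MetricSpace Q]

/-- the zeroth property of the data -/
def D0 (S : Sys Q) : Prop := ∀ E : Set (C × Q), IsClosed E → (∀ x, ∃ q, (x, q) ∈ E) →
        ¬ {x | (x, S.f x) ∈ E}.Countable

theorem main_point [SecondCountableTopology Q] {S : Sys Q} (e : Q ≃ₜ (ℕ → unitInterval))
    (hD0 : D0 S) (hD1 : D1 S) (N M : ℕ → Set C)
    (hN : ∀ i, ∀ x ∈ N i, ((e (S.f x) i : unitInterval) : ℝ) ≤ 2 / 3)
    (hM : ∀ i, ∀ x ∈ M i, 1 / 3 ≤ ((e (S.f x) i : unitInterval) : ℝ)) :
    ∃ x, ∀ i, (x ∈ N i → ∀ k, ∃ a ∈ M i, S.V false x k a ∧ S.V true x k a) ∧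
      (x ∈ M i → ∀ k, ∃ a ∈ N i, S.V false x k a ∧ S.V true x k a) := by
  classical
  let μ : C → C × Q := fun x => (x, S.f x)
  have hco : ∀ i, Continuous fun p : C × Q => ((e p.2 i : unitInterval) : ℝ) := fun i =>
    continuous_subtype_val.comp ((continuous_apply i).comp (e.continuous.comp continuous_snd))
  let N' : ℕ → Set (C × Q) := fun i => closure (μ '' N i) ∪
    {p | ((e p.2 i : unitInterval) : ℝ) = 0}
  let M' : ℕ → Set (C × Q) := fun i => closure (μ '' M i) ∪
    {p | ((e p.2 i : unitInterval) : ℝ) = 1}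
  have hN'c : ∀ i, IsClosed (N' i) := fun i =>
    isClosed_closure.union (isClosed_eq (hco i) continuous_const)
  have hM'c : ∀ i, IsClosed (M' i) := fun i =>
    isClosed_closure.union (isClosed_eq (hco i) continuous_const)
  have hN'e : ∀ i, (N' i).Nonempty := fun i =>
    ⟨(fun _ => false, e.symm fun _ => 0), Or.inr (by simp)⟩
  have hM'e : ∀ i, (M' i).Nonempty := fun i =>
    ⟨(fun _ => false, e.symm fun _ => 1), Or.inr (by simp)⟩
  have hN2 : ∀ i, ∀ p ∈ closure (μ '' N i), ((e p.2 i : unitInterval) : ℝ) ≤ 2 / 3 := by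
    intro i
    refine closure_minimal ?_ (isClosed_le (hco i) continuous_const)
    rintro _ ⟨x, hx, rfl⟩
    exact hN i x hx
  have hM2 : ∀ i, ∀ p ∈ closure (μ '' M i), 1 / 3 ≤ ((e p.2 i : unitInterval) : ℝ) := by
    intro i
    refine closure_minimal ?_ (isClosed_le continuous_const (hco i))
    rintro _ ⟨x, hx, rfl⟩
    exact hM i x hx
  choose F G hF hG hFG hFp hGp using fun i => exists_sep (hN'c i) (hM'c i) (hN'e i) (hM'e i)
  let E : Set (C × Q) := ⋂ i, (F i ∩ G i)
  have hE : IsClosed E := isClosed_iInter fun i => (hF i).inter (hG i)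
  have hproj : ∀ x, ∃ q, (x, q) ∈ E := by
    intro x
    have hc : Continuous fun q : ℕ → unitInterval => ((x, e.symm q) : C × Q) :=
      continuous_const.prodMk e.symm.continuous
    obtain ⟨q, hq⟩ := cube (F := fun i => (fun q => (x, e.symm q)) ⁻¹' F i)
      (G := fun i => (fun q => (x, e.symm q)) ⁻¹' G i) (fun i => (hF i).preimage hc)
      (fun i => (hG i).preimage hc)
      (fun i => by rw [← preimage_union, hFG, preimage_univ])
      (fun i q hq h1 => by
        have h2 : (x, e.symm q) ∈ N' i := hFp i _ hq (Or.inr (by simp [h1]))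
        rcases h2 with h2 | h2
        · have := hN2 i _ h2
          simp only [Homeomorph.apply_symm_apply, h1, Set.Icc.coe_one] at this
          norm_num at this
        · simp [h1] at h2)
      (fun i q hq h1 => by
        have h2 : (x, e.symm q) ∈ M' i := hGp i _ hq (Or.inr (by simp [h1]))
        rcases h2 with h2 | h2
        · have := hM2 i _ h2
          simp only [Homeomorph.apply_symm_apply, h1, Set.Icc.coe_zero] at this
          norm_num at this
        · simp [h1] at h2)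
    exact ⟨e.symm q, mem_iInter.2 hq⟩
  -- the tasks
  have hseq : ∀ A : Set C, ∃ a : ℕ → C, (A.Nonempty → (∀ k, a k ∈ A) ∧
      closure (μ '' A) ⊆ closure (range fun k => μ (a k))) := by
    intro A
    by_cases h : A.Nonempty
    · obtain ⟨a, ha⟩ := exists_dense_seq' μ h
      exact ⟨a, fun _ => ha⟩
    · exact ⟨fun _ _ => false, fun h' => absurd h' h⟩
  choose sq hsq using hseq
  let 𝒜 : ℕ → ℕ → C × C := fun m n =>
    if m % 2 = 0 then (sq (N (m / 2)) n, sq (N (m / 2)) n) else (sq (M (m / 2)) n, sq (M (m / 2)) n)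
  obtain ⟨x, hx1, hx2⟩ := hD1 𝒜 E hE (hD0 E hE hproj)
  have huse : ∀ (A : Set C) (m : ℕ), (∀ n, 𝒜 m n = (sq A n, sq A n)) → μ x ∈ closure (μ '' A) →
      ∀ k, ∃ a ∈ A, S.V false x k a ∧ S.V true x k a := by
    intro A m hm hx k
    have hne : A.Nonempty := image_nonempty.1 (closure_nonempty_iff.1 ⟨_, hx⟩)
    obtain ⟨h1, h2⟩ := hsq A hne
    have h3 := h2 hx
    obtain ⟨n, hn⟩ := hx2 m false true (fun L => by
      have hU : IsOpen {p : C × Q | p.1 ∈ cylinder x L ∧ dist p.2 (S.f x) < (1 / 2) ^ L} :=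
        ((isOpen_cylinder _ x L).preimage continuous_fst).inter
          (isOpen_lt (continuous_snd.dist continuous_const) continuous_const)
      obtain ⟨p, ⟨h4, h5⟩, ⟨n, rfl⟩⟩ := mem_closure_iff.1 h3 _ hU
        ⟨self_mem_cylinder _ _, by simp only [μ, dist_self]; positivity⟩
      refine ⟨n, ?_, ?_, fun _ _ => ?_⟩
      · rw [hm]; exact h4
      · rw [hm]; exact h4
      · rw [hm, F0_eq, S.F_self]; exact h5) k
    rw [hm] at hn
    exact ⟨_, h1 n, hn⟩
  refine ⟨x, fun i => ⟨fun hx => ?_, fun hx => ?_⟩⟩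
  · have h1 : μ x ∈ N' i := Or.inl (subset_closure (mem_image_of_mem _ hx))
    have h2 : μ x ∈ M' i := hGp i _ (mem_iInter.1 hx1 i).2 h1
    refine huse (M i) (2 * i + 1) (fun n => ?_) ?_
    · simp only [𝒜]
      rw [if_neg (by omega), show (2 * i + 1) / 2 = i by omega]
    · rcases h2 with h2 | h2
      · exact h2
      · have h3 := hN i x hx
        rw [show ((e (S.f x) i : unitInterval) : ℝ) = 1 from h2] at h3
        norm_num at h3
  · have h1 : μ x ∈ M' i := Or.inl (subset_closure (mem_image_of_mem _ hx))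
    have h2 : μ x ∈ N' i := hFp i _ (mem_iInter.1 hx1 i).1 h1
    refine huse (N i) (2 * i) (fun n => ?_) ?_
    · simp only [𝒜]
      rw [if_pos (by omega), show (2 * i) / 2 = i by omega]
    · rcases h2 with h2 | h2
      · exact h2
      · have h3 := hM i x hx
        rw [show ((e (S.f x) i : unitInterval) : ℝ) = 0 from h2] at h3
        norm_num at h3

/-- the diagonal -/
def dl (S : Sys Q) (x : C) : XX S × XX S := (((false, x) : XX S), ((true, x) : XX S))

theorem not_cd [SecondCountableTopology Q] {S : Sys Q} (e : Q ≃ₜ (ℕ → unitInterval))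
    (hD0 : D0 S) (hD1 : D1 S) :
    ¬ ∃ A : ℕ → Set (XX S × XX S), (⋃ k, A k) = Set.univ ∧ ∀ k, ∃ n : ℕ, DimLE (A k) n := by
  rintro ⟨A, hA, hdim⟩
  choose d hd using hdim
  let c : Q := e.symm fun _ => 0
  have hFm := continuous_Fm S c
  have hcoF : ∀ i, Continuous fun p : XX S × XX S =>
      ((e (Fm S c p.1.1 p.2.1 p.1.2 p.2.2) i : unitInterval) : ℝ) := fun i =>
    continuous_subtype_val.comp ((continuous_apply i).comp (e.continuous.comp hFm))
  choose F G hF hG hFG hFg hGg hFGe using fun n => partitions (hd n)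
    (fun i z => ((e (Fm S c z.1.1.1 z.1.2.1 z.1.1.2 z.1.2.2) (Nat.pair n i) : unitInterval) : ℝ))
    (fun i => (hcoF _).comp continuous_subtype_val)
  let N : ℕ → Set C := fun i => {x | ∃ (h : dl S x ∈ A (Nat.unpair i).1)
    (h' : (Nat.unpair i).2 < d (Nat.unpair i).1 + 1),
    (⟨dl S x, h⟩ : A (Nat.unpair i).1) ∈ F (Nat.unpair i).1 ⟨(Nat.unpair i).2, h'⟩}
  let M : ℕ → Set C := fun i => {x | ∃ (h : dl S x ∈ A (Nat.unpair i).1)
    (h' : (Nat.unpair i).2 < d (Nat.unpair i).1 + 1),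
    (⟨dl S x, h⟩ : A (Nat.unpair i).1) ∈ G (Nat.unpair i).1 ⟨(Nat.unpair i).2, h'⟩}
  have hdlF : ∀ x, Fm S c (dl S x).1.1 (dl S x).2.1 (dl S x).1.2 (dl S x).2.2 = S.f x := by
    intro x
    simp only [dl]
    rw [Fm_ne _ _ (by simp), S.F_self]
  obtain ⟨x, hx⟩ := main_point e hD0 hD1 N M
    (by
      rintro i x ⟨h, h', hx⟩
      have := hFg _ _ _ hx
      simp only [hdlF, Nat.pair_unpair] at this
      exact this.le)
    (by
      rintro i x ⟨h, h', hx⟩
      have := hGg _ _ _ hx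
      simp only [hdlF, Nat.pair_unpair] at this
      exact this.le)
  have hxA : dl S x ∈ ⋃ k, A k := hA ▸ mem_univ _
  obtain ⟨n, hn⟩ := mem_iUnion.1 hxA
  obtain ⟨i, hi⟩ := hFGe n ⟨dl S x, hn⟩
  have hup : Nat.unpair (Nat.pair n i) = (n, (i : ℕ)) := Nat.unpair_pair _ _
  have hNi : ∀ y, y ∈ N (Nat.pair n i) ↔ ∃ h : dl S y ∈ A n, (⟨dl S y, h⟩ : A n) ∈ F n i := by
    intro y
    simp only [N, mem_ofPred_eq]
    rw [hup]
    constructor
    · rintro ⟨h, h', hy⟩
      exact ⟨h, hy⟩
    · rintro ⟨h, hy⟩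
      exact ⟨h, i.2, hy⟩
  have hMi : ∀ y, y ∈ M (Nat.pair n i) ↔ ∃ h : dl S y ∈ A n, (⟨dl S y, h⟩ : A n) ∈ G n i := by
    intro y
    simp only [M, mem_ofPred_eq]
    rw [hup]
    constructor
    · rintro ⟨h, h', hy⟩
      exact ⟨h, hy⟩
    · rintro ⟨h, hy⟩
      exact ⟨h, i.2, hy⟩
  -- closed sets
  have hclos : ∀ (K : Set (A n)) (B : Set C), IsClosed K →
      (∀ y, y ∈ B ↔ ∃ h : dl S y ∈ A n, (⟨dl S y, h⟩ : A n) ∈ K) →
      (∀ k, ∃ a ∈ B, S.V false x k a ∧ S.V true x k a) → (⟨dl S x, hn⟩ : A n) ∈ K := by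
    intro K B hK hB hk
    by_contra hcon
    obtain ⟨U, hU, hUK⟩ := isOpen_induced_iff.1 hK.isOpen_compl
    have hxU : dl S x ∈ U := by
      have : (⟨dl S x, hn⟩ : A n) ∈ Subtype.val ⁻¹' U := by rw [hUK]; exact hcon
      exact this
    obtain ⟨V, hV, V', hV', hVV⟩ := mem_nhds_prod_iff.1 (hU.mem_nhds hxU)
    obtain ⟨k, -, hk1⟩ := (nhds_basis_N _).mem_iff.1 hV
    obtain ⟨l, -, hl1⟩ := (nhds_basis_N _).mem_iff.1 hV'
    obtain ⟨a, ha, ha1, ha2⟩ := hk (max k l)
    obtain ⟨h, haK⟩ := (hB a).1 ha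
    have h1 : dl S a ∈ U := hVV (show dl S a ∈ V ×ˢ V' from
      ⟨hk1 ⟨rfl, ha1.mono (le_max_left _ _)⟩, hl1 ⟨rfl, ha2.mono (le_max_right _ _)⟩⟩)
    have h2 : (⟨dl S a, h⟩ : A n) ∈ Subtype.val ⁻¹' U := h1
    rw [hUK] at h2
    exact h2 haK
  have hxFG : (⟨dl S x, hn⟩ : A n) ∈ F n i ∪ G n i := by rw [hFG]; trivial
  rcases hxFG with h | h
  · have h1 := hclos (G n i) _ (hG n i) hMi ((hx (Nat.pair n i)).1 ((hNi x).2 ⟨hn, h⟩))
    rcases hi with hi | hi
    · exact hi h
    · exact hi h1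
  · have h1 := hclos (F n i) _ (hF n i) hNi ((hx (Nat.pair n i)).2 ((hMi x).2 ⟨hn, h⟩))
    rcases hi with hi | hi
    · exact hi h1
    · exact hi h

end Run7.h272.ZD
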